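import Pool.Agent.Q99.FW.EF

/-!
The entries of the operator of a circle with `m` crossings.
-/

set_option autoImplicit false

namespace Pool.Agent.Q99.FW

open Matrix Finset Filter Topology
open Pool.Agent.H550R3.Jones (WM IsMod Gen br brf tens irr W)
open Pool.Agent.H897R.J (gen_v br_neg)
open Pool.Agent.W715.VC (rt)
open Pool.Agent.Q191.FT
open Pool.Agent.Q191.LB (dd ddn sg sg_or sc_entry MM_wt_eq ds)
open Pool.Agent.Q191.SH (gg f2 sgn X2 X2_sc X2_diff C2 C2_pow e2 MM2_E MM2_F MM2_wt)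
open Pool.Agent.Q191.TW (cs cs_add cs_zero cs_ne cs_period rt_cs I_pow brf_rt)
open Pool.Agent.W719.BS (D D_pos D_refl)
open scoped Kronecker

variable {N : ℕ}

theorem ite_diff {P : Prop} [Decidable P] {f : ℂ → ℂ} {v : ℂ} (hf : DifferentiableAt ℂ f v) :
    DifferentiableAt ℂ (fun w => if P then f w else 0) v := by
  split_ifs
  · exact hf
  · exact differentiableAt_const _

theorem W_E_diff {v : ℂ} (hv : v ≠ 0) (N : ℕ) : DA (fun w => (W w N).E) v := by
  intro p q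
  change DifferentiableAt ℂ (fun w => ((irr w N).E ⊗ₖ (irr w N).K w 1 +
    (1 : Matrix (Fin N) (Fin N) ℂ) ⊗ₖ (irr w N).E) p q) v
  simp only [Matrix.add_apply, kroneckerMap_apply, WM.K, diagonal_apply]
  have h1 : ∀ i j : Fin N, DifferentiableAt ℂ (fun w => (irr w N).E i j) v := fun i j => by
    change DifferentiableAt ℂ (fun w => if (j : ℕ) = i + 1 then br w ((N : ℤ) - (j : ℕ)) else 0) v
    exact ite_diff (br_diff hv _)
  have h2 : ∀ i j : Fin N, DifferentiableAt ℂ (fun w : ℂ => if i = j then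
      w ^ (1 * (irr w N).wt i) else 0) v := fun i j =>
    ite_diff (f := fun w : ℂ => w ^ (1 * ((N : ℤ) - 1 - 2 * (i : ℕ)))) (zpow_diff hv _)
  exact ((h1 _ _).mul (h2 _ _)).add ((differentiableAt_const _).mul (h1 _ _))

theorem W_F_diff {v : ℂ} (hv : v ≠ 0) (N : ℕ) : DA (fun w => (W w N).F) v := by
  intro p q
  change DifferentiableAt ℂ (fun w => ((irr w N).F ⊗ₖ (1 : Matrix (Fin N) (Fin N) ℂ) +
    (irr w N).K w (-1) ⊗ₖ (irr w N).F) p q) v
  simp only [Matrix.add_apply, kroneckerMap_apply, WM.K, diagonal_apply]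
  have h1 : ∀ i j : Fin N, DifferentiableAt ℂ (fun w => (irr w N).F i j) v := fun i j => by
    change DifferentiableAt ℂ (fun w => if (i : ℕ) = j + 1 then br w ((i : ℕ) : ℤ) else 0) v
    exact ite_diff (br_diff hv _)
  have h2 : ∀ i j : Fin N, DifferentiableAt ℂ (fun w : ℂ => if i = j then
      w ^ (-1 * (irr w N).wt i) else 0) v := fun i j =>
    ite_diff (f := fun w : ℂ => w ^ (-1 * ((N : ℤ) - 1 - 2 * (i : ℕ)))) (zpow_diff hv _)
  exact ((h1 _ _).mul (differentiableAt_const _)).add ((h2 _ _).mul (h1 _ _))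

/-- the sums over the intermediate states -/
noncomputable def g1 (N : ℕ) (s t : Fin N × Fin N) (l : ℕ) (v : ℂ) : ℂ :=
  ∑ r : Fin N × Fin N, ((W v N).F ^ l) s r * ((W v N).E ^ l) r t

noncomputable def g2 (N : ℕ) (s t : Fin N × Fin N) (l : ℕ) (v : ℂ) : ℂ :=
  ∑ r : Fin N × Fin N, ((W v N).E ^ l) s r * ((W v N).F ^ l) r t

theorem g1_cont (s t : Fin N × Fin N) (l : ℕ) : ContinuousAt (g1 N s t l) (rt N) := by
  have hE := (W_E_diff (rt0 N) N).pow l
  have hF := (W_F_diff (rt0 N) N).pow l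
  have h : DifferentiableAt ℂ (g1 N s t l) (rt N) := by
    unfold g1
    exact DifferentiableAt.fun_sum fun r _ => (hF s r).mul (hE r t)
  exact h.continuousAt

theorem g2_cont (s t : Fin N × Fin N) (l : ℕ) : ContinuousAt (g2 N s t l) (rt N) := by
  have hE := (W_E_diff (rt0 N) N).pow l
  have hF := (W_F_diff (rt0 N) N).pow l
  have h : DifferentiableAt ℂ (g2 N s t l) (rt N) := by
    unfold g2
    exact DifferentiableAt.fun_sum fun r _ => (hE s r).mul (hF r t)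
  exact h.continuousAt

theorem sum_e2 (f : Tp N 2 → ℂ) : ∑ r, f r = ∑ r, f ((e2 N).symm r) :=
  ((e2 N).symm.sum_comp f).symm

theorem EE_pow (v : ℂ) (l : ℕ) (s t : Tp N 2) :
    ((MM v N 2).E ^ l) s t = ((W v N).E ^ l) (e2 N s) (e2 N t) := by
  have h : (MM v N 2).E ^ l = C2 ((W v N).E ^ l) := by
    rw [C2_pow, MM2_E]; rfl
  rw [h]; rfl

theorem FF_pow (v : ℂ) (l : ℕ) (s t : Tp N 2) :
    ((MM v N 2).F ^ l) s t = ((W v N).F ^ l) (e2 N s) (e2 N t) := by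
  have h : (MM v N 2).F ^ l = C2 ((W v N).F ^ l) := by
    rw [C2_pow, MM2_F]; rfl
  rw [h]; rfl

theorem ds2 (x : Tp N 2) : ds 2 x = ((e2 N x).1 : ℕ) + ((e2 N x).2 : ℕ) := by
  change 0 + (x.1.2 : ℕ) + (x.2 : ℕ) = (x.1.2 : ℕ) + (x.2 : ℕ)
  rw [zero_add]

theorem X2_gen1 (σ : Bool) (m : ℕ) (s t : Tp N 2) {T h : ℕ}
    (hT : ((e2 N t).1 : ℕ) + ((e2 N t).2 : ℕ) = T) (hh : T + h + 1 = N) {u : ℂ} (hu : Gen u) :
    X2 σ N m 1 (u ^ 2) s t = ∑ l ∈ range (T + 1),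
      dd (f2 N (sg σ) m 1 (u ^ 2)) (u ^ 2) (2 * h) l * g1 N (e2 N s) (e2 N t) l (u ^ 2) := by
  have hv := gen_v hu
  have hwt : (MM (u ^ 2) N 2).wt t = ((2 * h : ℕ) : ℤ) := by
    rw [MM_wt_eq, ds2, hT]
    push_cast
    omega
  have h1 := sc_entry hu (MM_mod hv N 2) (X2_sc hu σ N m 1) (A := 2 * N)
    (fun i => by push_cast; exact (MM_wt (u ^ 2) N 2 i).1) hwt (MM_wt (u ^ 2) N 2 t).2 s
  rw [h1]
  have h2 : ∀ l, ∑ r, ((MM (u ^ 2) N 2).F ^ l) s r * ((MM (u ^ 2) N 2).E ^ l) r t =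
      g1 N (e2 N s) (e2 N t) l (u ^ 2) := by
    intro l
    rw [sum_e2]
    unfold g1
    refine sum_congr rfl fun r _ => ?_
    rw [EE_pow, FF_pow, Equiv.apply_symm_apply]
  have h3 : ∀ l, T < l → ∑ r, ((MM (u ^ 2) N 2).F ^ l) s r * ((MM (u ^ 2) N 2).E ^ l) r t = 0 := by
    intro l hl
    refine sum_eq_zero fun r _ => ?_
    have h4 : ((MM (u ^ 2) N 2).E ^ l) r t = 0 := by
      by_contra h5
      have h6 := Pool.Agent.H22R3.J.E_pow_wt (MM_mod hv N 2) l r t h5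
      rw [hwt, MM_wt_eq] at h6
      push_cast at h6
      omega
    rw [h4, mul_zero]
  rw [← sum_subset (range_subset_range.2 (by omega : T + 1 ≤ 2 * N + 1))]
  · exact sum_congr rfl fun l _ => by rw [h2]
  · intro l _ hl
    rw [mem_range] at hl
    rw [h3 l (by omega), mul_zero]

theorem X2_gen2 (σ : Bool) (m : ℕ) (s t : Tp N 2) {T h : ℕ}
    (hT : ((e2 N t).1 : ℕ) + ((e2 N t).2 : ℕ) + T + 2 = 2 * N) (hh : T + h + 1 = N) {u : ℂ}
    (hu : Gen u) :
    X2 σ N m 1 (u ^ 2) s t = ∑ l ∈ range (T + 1),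
      dd (f2 N (sg σ) m 1 (u ^ 2)) (u ^ 2) (2 * h) l * g2 N (e2 N s) (e2 N t) l (u ^ 2) := by
  have hv := gen_v hu
  have hM := MM_mod hv N 2
  have hwt : (dual (MM (u ^ 2) N 2)).wt t = ((2 * h : ℕ) : ℤ) := by
    change -(MM (u ^ 2) N 2).wt t = _
    rw [MM_wt_eq, ds2]
    push_cast
    omega
  have hS : Sc u (dual (MM (u ^ 2) N 2)) (X2 σ N m 1 (u ^ 2)) ((2 : ℕ) * ((N : ℤ) - 1))
      (f2 N (sg σ) m 1 (u ^ 2)) := by
    intro c hc y hy
    rw [Cas_dual hv hM] at hy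
    exact X2_sc hu σ N m 1 c hc y hy
  have hpar : (2 : ℤ) ∣ (dual (MM (u ^ 2) N 2)).wt t - (2 : ℕ) * ((N : ℤ) - 1) := by
    rw [hwt]
    exact ⟨h - ((N : ℤ) - 1), by push_cast; ring⟩
  have h1 := sc_entry hu (dual_mod hM) hS (A := 2 * N)
    (fun i => by
      change |-(MM (u ^ 2) N 2).wt i| ≤ _
      rw [abs_neg]
      push_cast
      exact (MM_wt (u ^ 2) N 2 i).1) hwt hpar s
  rw [h1]
  have h2 : ∀ l, ∑ r, ((dual (MM (u ^ 2) N 2)).F ^ l) s r * ((dual (MM (u ^ 2) N 2)).E ^ l) r t =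
      g2 N (e2 N s) (e2 N t) l (u ^ 2) := by
    intro l
    rw [sum_e2]
    unfold g2
    refine sum_congr rfl fun r _ => ?_
    change ((MM (u ^ 2) N 2).E ^ l) s _ * ((MM (u ^ 2) N 2).F ^ l) _ t = _
    rw [EE_pow, FF_pow, Equiv.apply_symm_apply]
  have h3 : ∀ l, T < l → ∑ r, ((dual (MM (u ^ 2) N 2)).F ^ l) s r *
      ((dual (MM (u ^ 2) N 2)).E ^ l) r t = 0 := by
    intro l hl
    refine sum_eq_zero fun r _ => ?_
    have h4 : ((dual (MM (u ^ 2) N 2)).E ^ l) r t = 0 := by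
      by_contra h5
      have h6 := Pool.Agent.H22R3.J.E_pow_wt (dual_mod hM) l r t h5
      rw [hwt] at h6
      change -(MM (u ^ 2) N 2).wt r = _ at h6
      have h7 := ds2 r
      rw [MM_wt_eq, h7] at h6
      have h8 := (e2 N r).1.2
      have h9 := (e2 N r).2.2
      push_cast at h6
      omega
    rw [h4, mul_zero]
  rw [← sum_subset (range_subset_range.2 (by omega : T + 1 ≤ 2 * N + 1))]
  · exact sum_congr rfl fun l _ => by rw [h2]
  · intro l _ hl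
    rw [mem_range] at hl
    rw [h3 l (by omega), mul_zero]

/-! ### Reversal -/

theorem brf_co (hN : 0 < N) {n k : ℕ} (h : n + k + 1 = N) :
    brf (rt N) n * brf (rt N) k = brf (rt N) (N - 1) := by
  rw [brf_rt, brf_rt, brf_rt, D_last hN]
  have h1 := D_refl N n k h
  have e : N - 1 = n + k := by omega
  rw [e, pow_add]
  have h2 : (D N n : ℂ) * (D N k : ℂ) = (N : ℂ) := by
    rw [← Complex.ofReal_mul, h1]; simp
  linear_combination (Complex.I ^ n * Complex.I ^ k) * h2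

theorem ee_rev (hN : 0 < N) {l c d r1 r2 : ℕ} (hc : c < N) (hd : d < N) (h1 : r1 < N)
    (h2 : r2 < N) :
    ee N l c d r1 r2 = ffe N l (N - 1 - d) (N - 1 - c) (N - 1 - r2) (N - 1 - r1) := by
  unfold ee ffe
  by_cases h : c + d + l = r1 + r2 ∧ c ≤ r1 ∧ d ≤ r2
  · rw [if_pos h, if_pos (by omega)]
    have e1 : N - 1 - d - (N - 1 - r2) = r2 - d := by omega
    have e2 : N - 1 - c - (N - 1 - r1) = r1 - c := by omega
    have e3 : ((N - 1 - d : ℕ) : ℤ) = (N : ℤ) - 1 - d := by omega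
    have e4 : ((N - 1 - c : ℕ) : ℤ) = (N : ℤ) - 1 - c := by omega
    have e5 : ((N - 1 - r2 : ℕ) : ℤ) = (N : ℤ) - 1 - r2 := by omega
    have e6 : ((N - 1 - r1 : ℕ) : ℤ) = (N : ℤ) - 1 - r1 := by omega
    rw [e1, e2, e3, e4, e5, e6]
    have k1 := brf_co hN (show c + (N - 1 - c) + 1 = N by omega)
    have k2 := brf_co hN (show d + (N - 1 - d) + 1 = N by omega)
    have k3 := brf_co hN (show r1 + (N - 1 - r1) + 1 = N by omega)
    have k4 := brf_co hN (show r2 + (N - 1 - r2) + 1 = N by omega)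
    have n1 := brfne (N := N) (n := c) hc
    have n2 := brfne (N := N) (n := d) hd
    have n3 := brfne (N := N) (n := r1) h1
    have n4 := brfne (N := N) (n := r2) h2
    have n5 := brfne (N := N) (n := N - 1) (by omega)
    have m1 : brf (rt N) (N - 1 - c) = brf (rt N) (N - 1) / brf (rt N) c := by
      rw [eq_div_iff n1, mul_comm, k1]
    have m2 : brf (rt N) (N - 1 - d) = brf (rt N) (N - 1) / brf (rt N) d := by
      rw [eq_div_iff n2, mul_comm, k2]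
    have m3 : brf (rt N) (N - 1 - r1) = brf (rt N) (N - 1) / brf (rt N) r1 := by
      rw [eq_div_iff n3, mul_comm, k3]
    have m4 : brf (rt N) (N - 1 - r2) = brf (rt N) (N - 1) / brf (rt N) r2 := by
      rw [eq_div_iff n4, mul_comm, k4]
    rw [m1, m2, m3, m4]
    have n6 := brfne (N := N) (n := r1 - c) (by omega)
    have n7 := brfne (N := N) (n := r2 - d) (by omega)
    have ex : ((r1 : ℤ) - c) * ((r2 : ℤ) - d) + ((r1 : ℤ) - c) * ((N : ℤ) - 1 - 2 * r2) =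
        ((N : ℤ) - 1 - d - ((N : ℤ) - 1 - r2)) * ((N : ℤ) - 1 - c - ((N : ℤ) - 1 - r1)) -
        ((N : ℤ) - 1 - c - ((N : ℤ) - 1 - r1)) * ((N : ℤ) - 1 - 2 * ((N : ℤ) - 1 - r2)) := by
      ring
    rw [ex]
    field_simp
  · rw [if_neg h, if_neg (by omega)]

theorem ffe_rev (hN : 0 < N) {l c d r1 r2 : ℕ} (hc : c < N) (hd : d < N) (h1 : r1 < N)
    (h2 : r2 < N) :
    ffe N l c d r1 r2 = ee N l (N - 1 - d) (N - 1 - c) (N - 1 - r2) (N - 1 - r1) := by
  rw [ee_rev hN (by omega) (by omega) (by omega) (by omega)]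
  congr 1 <;> omega

/-- reversal of states -/
def rv (N : ℕ) : Fin N × Fin N ≃ Fin N × Fin N where
  toFun r := (Fin.rev r.2, Fin.rev r.1)
  invFun r := (Fin.rev r.2, Fin.rev r.1)
  left_inv r := by simp
  right_inv r := by simp

theorem fe_sum (hN : 0 < N) {l a b c d : ℕ} (ha : a < N) (hb : b < N) (hc : c < N) (hd : d < N) :
    ∑ r : Fin N × Fin N, ee N l c d r.1 r.2 * ffe N l r.1 r.2 a b =
      if a + b = c + d then (-1) ^ l * (D N l : ℂ) ^ 2 *
        ∑ p ∈ range N, gt N (N - 1 - b : ℕ) (N - 1 - a : ℕ) (N - 1 - d : ℕ) (N - 1 - c : ℕ) l p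
      else 0 := by
  have h := ef_sum hN (l := l) (a := N - 1 - b) (b := N - 1 - a) (c := N - 1 - d) (d := N - 1 - c)
    (by omega) (by omega) (by omega) (by omega)
  have hc2 : (N - 1 - b + (N - 1 - a) = N - 1 - d + (N - 1 - c)) ↔ (a + b = c + d) := by omega
  simp only [hc2] at h
  rw [← h, ← (rv N).sum_comp]
  refine sum_congr rfl fun r _ => ?_
  have e1 : (((rv N) r).1 : ℕ) = N - 1 - r.2 := by
    change ((Fin.rev r.2 : Fin N) : ℕ) = _
    rw [Fin.val_rev]; omega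
  have e2 : (((rv N) r).2 : ℕ) = N - 1 - r.1 := by
    change ((Fin.rev r.1 : Fin N) : ℕ) = _
    rw [Fin.val_rev]; omega
  have h1 := r.1.2
  have h2 := r.2.2
  have e3 : N - 1 - (N - 1 - (r.1 : ℕ)) = r.1 := by omega
  have e4 : N - 1 - (N - 1 - (r.2 : ℕ)) = r.2 := by omega
  rw [e1, e2, ee_rev hN hc hd (by omega) (by omega), ffe_rev hN (by omega) (by omega) ha hb, e3, e4]

/-! ### The sum -/

theorem tm_zero (w : ℝ) {a b c d : ℤ} {l i p : ℕ}
    (h : ¬ ((i : ℤ) ≤ l ∧ (l : ℤ) + p ≤ a + b)) : tm w N a b c d l i p = 0 := by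
  have h3 : ¬ (0 ≤ (l : ℤ) - i ∧ 0 ≤ (N : ℤ) - 1 - l ∧ 0 ≤ (i : ℤ)) ∨
      ¬ (0 ≤ rr a b l p ∧ 0 ≤ b - rr a b l p ∧ 0 ≤ (N : ℤ) - 1 - b) := by
    unfold rr
    omega
  unfold tm T6
  rcases h3 with h3 | h3
  all_goals rw [TZ_zero (N := N) h3]; simp

/-- the sum of an entry -/
theorem sum_eq (hN : 0 < N) {s : ℤ} (hs : s = 1 ∨ s = -1) (m : ℕ) {T h a b c d : ℕ}
    (hT : a + b = T) (hh : T + h + 1 = N) :
    ∑ l ∈ range (T + 1), (∑ i ∈ range (l + 1), tl N s m (2 * h) i l) *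
      ((-1) ^ l * (D N l : ℂ) ^ 2 * ∑ p ∈ range N, gt N a b c d l p) =
    Kg N s ^ m * K2 N * SS (s * m) N a b c d := by
  have h1 : SS (s * m) N a b c d = ∑ l ∈ range (T + 1), ∑ i ∈ range (l + 1), ∑ p ∈ range N,
      tm (s * m) N a b c d l i p := by
    unfold SS
    rw [← sum_subset (range_subset_range.2 (by omega : T + 1 ≤ N))]
    · refine sum_congr rfl fun l hl => ?_
      rw [mem_range] at hl
      rw [← sum_subset (range_subset_range.2 (by omega : l + 1 ≤ N))]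
      intro i _ hi
      rw [mem_range] at hi
      have hz : ∀ p ∈ range N, tm (s * m) N a b c d l i p = 0 := fun p _ => tm_zero _ (by omega)
      exact sum_eq_zero hz
    · intro l _ hl
      rw [mem_range] at hl
      have hz : ∀ i ∈ range N, ∑ p ∈ range N, tm (s * m) N a b c d l i p = 0 := fun i _ =>
        sum_eq_zero fun p _ => tm_zero _ (by omega)
      exact sum_eq_zero hz
  rw [h1, mul_sum]
  refine sum_congr rfl fun l hl => ?_
  rw [mem_range] at hl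
  have e0 : Kg N s ^ m * K2 N * ∑ i ∈ range (l + 1), ∑ p ∈ range N, tm (s * m) N a b c d l i p =
    ∑ i ∈ range (l + 1), Kg N s ^ m * K2 N * ∑ p ∈ range N, tm (s * m) N a b c d l i p :=
    mul_sum _ _ _
  rw [sum_mul, e0]
  refine sum_congr rfl fun i hi => ?_
  rw [mem_range] at hi
  rw [tl_eq hN hs m h (by omega) (by omega) (by omega), mul_sum, mul_sum, mul_sum]
  refine sum_congr rfl fun p _ => ?_
  have ej : ((N : ℤ) - 1 - 2 * h - i) = jj N a b i := by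
    unfold jj
    omega
  rw [ej]
  unfold tm T6 gt
  rw [cs_add]
  have hD : (D N l : ℂ) ≠ 0 := by exact_mod_cast (D_pos N l (by omega)).ne'
  have hsq : ((-1 : ℂ) ^ l) * (-1) ^ l = 1 := by
    rw [← mul_pow]; norm_num
  generalize (D N l : ℝ) = y at *
  simp only [Complex.ofReal_mul]
  generalize (-1 : ℂ) ^ l = x at *
  generalize (((N : ℤ) + i - jj N a b i : ℤ) : ℂ) = n0
  generalize Kg N s ^ m = G
  generalize K2 N = K
  generalize cs N _ = t1
  generalize cs N _ = t2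
  generalize ((TZ N _ _ _ : ℝ) : ℂ) = t3
  generalize ((TZ N _ _ _ : ℝ) : ℂ) = t4
  generalize ((TZ N _ _ _ : ℝ) : ℂ) = t5
  generalize ((TZ N _ _ _ : ℝ) : ℂ) = t6
  generalize ((TZ N _ _ _ : ℝ) : ℂ) = t7
  generalize ((TZ N _ _ _ : ℝ) : ℂ) = t8
  have e9 : G * K * (x * (n0 * t1 * (t3 * t4)) / (y : ℂ) ^ 2) *
      (x * (y : ℂ) ^ 2 * (t2 * (t5 * t6 * (t7 * t8)))) =
      G * K * (x * x) * ((n0 * t1 * (t3 * t4)) * (t2 * (t5 * t6 * (t7 * t8)))) := by
    field_simp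
  rw [e9, hsq]
  ring

end Pool.Agent.Q99.FW
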