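import Pool.Agent.Q99.FW.FE

/-!
Limits at the root of unity of the divided differences of the eigenvalues of a circle with `m`
crossings.
-/

set_option autoImplicit false

namespace Pool.Agent.Q99.FW

open Finset Filter Topology
open Pool.Agent.H550R3.Jones (WM IsMod Gen br brf tens irr W)
open Pool.Agent.H897R.J (gen_v br_neg)
open Pool.Agent.W715.VC (rt)
open Pool.Agent.Q191.FT
open Pool.Agent.Q191.LB (dd ddn)
open Pool.Agent.Q191.SH (gg f2 sgn)

variable {N : ℕ}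

theorem Dn_eq {v : ℂ} (hv : v ≠ 0) (μ : ℕ) {i l : ℕ} (h : i ≤ l) :
    Dn (nu v μ) i l * (brf v (μ + i) * br v ((μ : ℤ) + 1 + 2 * i)) =
      (-1) ^ (l - i) * (brf v (μ + 1 + i + l) * (brf v i * brf v (l - i))) := by
  induction l, h using Nat.le_induction with
  | base =>
    have h0 : (range (i + 1)).erase i = range i := by
      rw [range_add_one, erase_insert (by simp)]
    have h1 : Dn (nu v μ) i i = (∏ j ∈ range i, br v ((μ : ℤ) + 1 + i + j)) *
        ∏ j ∈ range i, br v ((i : ℤ) - j) := by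
      unfold Dn
      rw [h0, ← prod_mul_distrib]
      exact prod_congr rfl fun j _ => nu_sub hv μ i j
    have h2 : ∏ j ∈ range i, br v ((i : ℤ) - j) = brf v i := by
      unfold brf
      rw [← prod_range_reflect]
      refine prod_congr rfl fun j hj => ?_
      rw [mem_range] at hj
      congr 1
      omega
    have h3 : brf v (μ + 1 + i + i) = brf v (μ + i) * (∏ j ∈ range i, br v ((μ : ℤ) + 1 + i + j)) *
        br v ((μ : ℤ) + 1 + 2 * i) := by
      have e1 : μ + 1 + i + i = μ + i + i + 1 := by ring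
      rw [e1, brf_succ', brf_add]
      congr 1
      · congr 1
        refine prod_congr rfl fun j _ => ?_
        congr 1
        push_cast; ring
      · congr 1
        push_cast; ring
    rw [h1, h2, h3, Nat.sub_self, brf0, pow_zero]
    ring
  | succ l hl ih =>
    rw [Dn_succ hl, nu_sub hv]
    have e1 : μ + 1 + i + (l + 1) = μ + 1 + i + l + 1 := by ring
    have e2 : l + 1 - i = l - i + 1 := by omega
    rw [e1, e2, brf_succ', brf_succ' v (l - i)]
    have e3 : ((μ : ℤ) + 1 + i + ((l + 1 : ℕ) : ℤ)) = (((μ + 1 + i + l : ℕ) : ℤ) + 1) := by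
      push_cast; ring
    have e4 : ((i : ℤ) - ((l + 1 : ℕ) : ℤ)) = -(((l - i : ℕ) : ℤ) + 1) := by omega
    rw [e3, e4, br_neg, pow_succ]
    linear_combination (-(br v (((μ + 1 + i + l : ℕ) : ℤ) + 1) * br v (((l - i : ℕ) : ℤ) + 1))) * ih

/-- symmetric geometric sums -/
theorem geo_sym {w : ℂ} (hw : w ≠ 0) (n : ℕ) :
    (w - w⁻¹) * ∑ x ∈ range n, w ^ ((n : ℤ) - 1 - 2 * x) = w ^ (n : ℤ) - w ^ (-(n : ℤ)) := by
  have h := Finset.sum_range_sub' (fun x : ℕ => w ^ ((n : ℤ) - 2 * x)) n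
  have e : w ^ ((n : ℤ) - 2 * ((0 : ℕ) : ℤ)) - w ^ ((n : ℤ) - 2 * (n : ℤ)) =
      w ^ (n : ℤ) - w ^ (-(n : ℤ)) := by
    congr 2
    all_goals ring
  rw [← e, ← h, mul_sum]
  refine sum_congr rfl fun x _ => ?_
  have e1 : w ^ ((n : ℤ) - 2 * x) = w * w ^ ((n : ℤ) - 1 - 2 * x) := by
    rw [← zpow_one_add₀ hw]
    congr 1; ring
  have e2 : w ^ ((n : ℤ) - 2 * ((x + 1 : ℕ) : ℤ)) = w⁻¹ * w ^ ((n : ℤ) - 1 - 2 * x) := by
    rw [← zpow_neg_one, ← zpow_add₀ hw]
    congr 1; push_cast; ring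
  rw [e1, e2]
  ring

/-- `{N c} / {N}` -/
noncomputable def sk (v : ℂ) (N c : ℕ) : ℂ := ∑ x ∈ range c, (v ^ N) ^ ((c : ℤ) - 1 - 2 * x)

theorem sk_br {v : ℂ} (hv : v ≠ 0) (N c : ℕ) : br v N * sk v N c = br v ((N : ℤ) * c) := by
  have h := geo_sym (pow_ne_zero N hv) c
  have e1 : br v N = v ^ N - (v ^ N)⁻¹ := by
    unfold br
    rw [zpow_natCast, zpow_neg, zpow_natCast]
  have e2 : br v ((N : ℤ) * c) = (v ^ N) ^ (c : ℤ) - (v ^ N) ^ (-(c : ℤ)) := by
    unfold br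
    rw [← zpow_natCast v N, ← zpow_mul, ← zpow_mul, mul_neg]
  rw [e1, e2]
  exact h

theorem sk_rt (hN : 0 < N) {c : ℕ} (hc : ¬ 2 ∣ c) : sk (rt N) N c = c := by
  have h := rtN hN
  rw [zpow_natCast] at h
  unfold sk
  rw [h]
  have e : ∀ x ∈ range c, (-1 : ℂ) ^ ((c : ℤ) - 1 - 2 * x) = 1 := by
    intro x _
    refine Even.neg_one_zpow ?_
    rw [Int.even_iff]
    omega
  rw [sum_congr rfl e, sum_const, card_range, nsmul_eq_mul, mul_one]

theorem sk_cont {v : ℂ} (hv : v ≠ 0) (N c : ℕ) : ContinuousAt (fun v => sk v N c) v := by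
  unfold sk
  refine tendsto_finsetSum _ fun x _ => ?_
  exact (ContinuousAt.zpow₀ (continuousAt_id.pow N) _ (Or.inl (pow_ne_zero N hv)))

theorem chi_br {v : ℂ} (hv : v ≠ 0) (N c : ℕ) :
    chi v N c * br v c = (-1) ^ (N - 1) * br v ((N : ℤ) * c) := by
  have h := geo_sym (pow_ne_zero c hv) N
  have e : chi v N c = (-1) ^ (N - 1) * ∑ x ∈ range N, (v ^ c) ^ ((N : ℤ) - 1 - 2 * x) := by
    unfold chi
    rw [Finset.sum_range]
    congr 1
    refine sum_congr rfl fun x _ => ?_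
    change v ^ ((c : ℤ) * ((N : ℤ) - 1 - 2 * (x : ℕ))) = _
    rw [zpow_mul, zpow_natCast]
  rw [e]
  have e2 : br v c = v ^ c - (v ^ c)⁻¹ := by
    unfold br
    rw [zpow_natCast, zpow_neg, zpow_natCast]
  have e3 : br v ((N : ℤ) * c) = (v ^ c) ^ (N : ℤ) - (v ^ c) ^ (-(N : ℤ)) := by
    unfold br
    rw [← zpow_natCast v c, ← zpow_mul, ← zpow_mul, mul_comm, mul_neg]
  rw [e2, e3, ← h]
  ring

theorem br_Nadd (hN : 0 < N) (k : ℤ) : br (rt N) ((N : ℤ) + k) = -br (rt N) k := by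
  have h := br_Nsub hN (-k)
  rw [sub_neg_eq_add] at h
  rw [h, br_neg]

theorem br_N (hN : 0 < N) : br (rt N) (N : ℤ) = 0 := by
  have h := br_Nsub hN 0
  rw [sub_zero] at h
  rw [h, Pool.Agent.W715.VC.br_zero]

/-- factorials beyond `N` -/
theorem brf_split (v : ℂ) {n : ℕ} (hN : 0 < N) (h : N ≤ n) :
    brf v n = brf v (N - 1) * br v N * ∏ t ∈ range (n - N), br v (((N + t : ℕ) : ℤ) + 1) := by
  have e : n = N + (n - N) := by omega
  conv_lhs => rw [e, brf_add]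
  congr 1
  have e2 : N = N - 1 + 1 := by omega
  conv_lhs => rw [e2, brf_succ']
  congr 2
  omega

theorem brf_hi (hN : 0 < N) {n : ℕ} (h : N ≤ n) : brf (rt N) n = 0 := by
  rw [brf_split (rt N) hN h, br_N hN]
  ring

theorem prod_hi (hN : 0 < N) (k : ℕ) : ∏ t ∈ range k, br (rt N) (((N + t : ℕ) : ℤ) + 1) =
    (-1) ^ k * brf (rt N) k := by
  induction k with
  | zero => rw [prod_range_zero, brf0]; norm_num
  | succ k ih =>
    rw [prod_range_succ, ih, brf_succ', pow_succ]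
    have e : (((N + k : ℕ) : ℤ) + 1) = (N : ℤ) + ((k : ℤ) + 1) := by push_cast; ring
    rw [e, br_Nadd hN]
    ring

/-- the value of a term away from the root of unity -/
noncomputable def tv (N : ℕ) (s : ℤ) (m μ i l : ℕ) (v : ℂ) : ℂ :=
  gg N s v ((μ : ℤ) + 1 + 2 * i) ^ m * v ^ (-((2 : ℕ) * ((N : ℤ) ^ 2 - 1))) * (-1) ^ (N - 1) *
    (-1) ^ (l - i) * (brf v (μ + i) / (brf v i * brf v (l - i)))

theorem term_eq {u : ℂ} (hu : Gen u) (s : ℤ) (m μ : ℕ) {i l : ℕ} (h : i ≤ l) :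
    f2 N s m 1 (u ^ 2) ((μ : ℤ) + 1 + 2 * i) * (Dn (nu (u ^ 2) μ) i l)⁻¹ =
      tv N s m μ i l (u ^ 2) *
        (br (u ^ 2) N * sk (u ^ 2) N (μ + 1 + 2 * i) / brf (u ^ 2) (μ + 1 + i + l)) := by
  have hv := gen_v hu
  set v := u ^ 2 with hvd
  have hD := Dn_eq hv μ h
  have hb : ∀ n, brf v n ≠ 0 := Pool.Agent.H559R3.J.brf_ne hu
  have hbr : br v ((μ : ℤ) + 1 + 2 * i) ≠ 0 := by
    have := hu.2 (μ + 1 + 2 * i) (by omega)
    push_cast at this
    exact this
  have hc := chi_br hv N (μ + 1 + 2 * i)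
  have hs := sk_br hv N (μ + 1 + 2 * i)
  have ec : ((μ + 1 + 2 * i : ℕ) : ℤ) = (μ : ℤ) + 1 + 2 * i := by push_cast; ring
  rw [ec] at hc hs
  have hDne : Dn (nu v μ) i l ≠ 0 := by
    intro h0
    rw [h0, zero_mul] at hD
    have h1 : ((-1 : ℂ) ^ (l - i)) ≠ 0 := pow_ne_zero _ (by norm_num)
    exact mul_ne_zero h1 (mul_ne_zero (hb _) (mul_ne_zero (hb _) (hb _))) hD.symm
  have hsq : ((-1 : ℂ) ^ (l - i)) * (-1) ^ (l - i) = 1 := by
    rw [← mul_pow]; norm_num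
  have hDinv : (Dn (nu v μ) i l)⁻¹ = (-1) ^ (l - i) * (brf v (μ + i) * br v ((μ : ℤ) + 1 + 2 * i)) /
      (brf v (μ + 1 + i + l) * (brf v i * brf v (l - i))) := by
    rw [inv_eq_iff_eq_inv, eq_comm, inv_div, div_eq_iff (mul_ne_zero (pow_ne_zero _ (by norm_num))
      (mul_ne_zero (hb _) hbr))]
    linear_combination (-((-1 : ℂ) ^ (l - i))) * hD + (-(brf v (μ + 1 + i + l) * (brf v i * brf v (l - i)))) * hsq
  rw [hDinv]
  unfold f2 tv
  rw [pow_one, hs]
  have h1 := hb (μ + 1 + i + l)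
  have h2 := hb i
  have h3 := hb (l - i)
  field_simp
  linear_combination (gg N s v (↑μ + 1 + 2 * ↑i) ^ m * brf v (μ + i)) * hc

/-- the limit of a term -/
noncomputable def tl (N : ℕ) (s : ℤ) (m μ i l : ℕ) : ℂ :=
  if μ + 1 + i + l < N then 0 else
    tv N s m μ i l (rt N) * ((μ + 1 + 2 * i : ℕ) /
      (brf (rt N) (N - 1) * ((-1) ^ (μ + 1 + i + l - N) * brf (rt N) (μ + 1 + i + l - N))))

theorem brf_cont {v : ℂ} (hv : v ≠ 0) (n : ℕ) : ContinuousAt (fun v => brf v n) v :=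
  (brf_diff hv n).continuousAt

theorem br_cont {v : ℂ} (hv : v ≠ 0) (n : ℤ) : ContinuousAt (fun v => br v n) v :=
  (br_diff hv n).continuousAt

theorem tv_cont (_ : 0 < N) (s : ℤ) (m μ i l : ℕ) (hi : i < N) (hl : l < N) :
    ContinuousAt (fun v => tv N s m μ i l v) (rt N) := by
  have h0 := rt0 N
  have hz : ∀ n : ℤ, ContinuousAt (fun v : ℂ => v ^ n) (rt N) := fun n =>
    continuousAt_zpow₀ _ _ (Or.inl h0)
  have h1 : ContinuousAt (fun v => gg N s v ((μ : ℤ) + 1 + 2 * i)) (rt N) := by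
    unfold gg
    exact (hz _).const_mul _
  unfold tv
  refine ((((h1.pow m).mul (hz _)).mul_const _).mul_const _).mul ?_
  refine (brf_cont h0 _).div ((brf_cont h0 _).mul (brf_cont h0 _)) ?_
  exact mul_ne_zero (brfne hi) (brfne (by omega))

/-- a filter of generic parameters converging to the root of unity -/
theorem tl_lim (hN : 0 < N) (s : ℤ) (m μ : ℕ) {i l : ℕ} (hi : i ≤ l) (hl : l < N)
    (h2 : μ + 1 + i + l < 2 * N) (hc : ¬ 2 ∣ μ + 1 + 2 * i) {F : Filter ℂ} (hF : F ≤ 𝓝 (rt N))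
    (hF2 : ∀ᶠ v in F, v ≠ 0 ∧ ∀ n : ℕ, 0 < n → br v n ≠ 0) :
    Tendsto (fun v => tv N s m μ i l v *
        (br v N * sk v N (μ + 1 + 2 * i) / brf v (μ + 1 + i + l))) F (𝓝 (tl N s m μ i l)) := by
  have h0 := rt0 N
  have ht := (tv_cont hN s m μ i l (by omega) hl).tendsto.mono_left hF
  unfold tl
  split_ifs with hn
  · have h3 : ContinuousAt (fun v => br v N * sk v N (μ + 1 + 2 * i) / brf v (μ + 1 + i + l))
        (rt N) := by
      exact ((br_cont h0 _).mul (sk_cont h0 _ _)).div (brf_cont h0 _) (brfne hn)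
    have h4 := ht.mul (h3.tendsto.mono_left hF)
    rw [br_N hN] at h4
    simpa using h4
  · push Not at hn
    refine ht.mul ?_
    have hne : brf (rt N) (N - 1) * ((-1) ^ (μ + 1 + i + l - N) *
        brf (rt N) (μ + 1 + i + l - N)) ≠ 0 :=
      mul_ne_zero (brfne (by omega)) (mul_ne_zero (pow_ne_zero _ (by norm_num))
        (brfne (by omega)))
    have h3 : ContinuousAt (fun v => sk v N (μ + 1 + 2 * i) / (brf v (N - 1) *
        ∏ t ∈ range (μ + 1 + i + l - N), br v (((N + t : ℕ) : ℤ) + 1))) (rt N) := by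
      refine (sk_cont h0 _ _).div ((brf_cont h0 _).mul ?_) ?_
      · exact tendsto_finsetProd _ fun t _ => br_cont h0 _
      · rw [prod_hi hN]; exact hne
    have h4 := h3.tendsto.mono_left hF
    rw [prod_hi hN, sk_rt hN hc] at h4
    refine h4.congr' ?_
    filter_upwards [hF2] with v hv
    rw [brf_split v hN hn]
    have h5 := hv.2 N hN
    field_simp

end Pool.Agent.Q99.FW
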