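import Pool.Agent.Q99.FW.Dd

/-!
The passage to the root of unity.
-/

set_option autoImplicit false

namespace Pool.Agent.Q99.FW

open Finset Filter Topology
open Pool.Agent.H550R3.Jones (WM IsMod Gen br brf tens irr W)
open Pool.Agent.H897R.J (gen_v br_neg)
open Pool.Agent.W715.VC (rt)
open Pool.Agent.Q191.FT
open Pool.Agent.Q191.LB (dd ddn)
open Pool.Agent.Q191.SH (gg f2 sgn)

variable {N : ℕ}

/-- a square root of the root of unity -/
noncomputable def u0 (N : ℕ) : ℂ := Complex.exp (Real.pi * Complex.I / (2 * N))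

theorem u0_sq (N : ℕ) : u0 N ^ 2 = rt N := by
  unfold u0 rt
  rw [← Complex.exp_nat_mul]
  congr 1
  rcases Nat.eq_zero_or_pos N with h | h
  · subst h; simp
  · have : (N : ℂ) ≠ 0 := by exact_mod_cast h.ne'
    field_simp
    push_cast
    ring

theorem u0_norm (N : ℕ) : ‖u0 N‖ = 1 := by
  unfold u0
  have e : (Real.pi * Complex.I / (2 * N) : ℂ) = ((Real.pi / (2 * N) : ℝ) : ℂ) * Complex.I := by
    push_cast
    ring
  rw [e, Complex.norm_exp_ofReal_mul_I]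

theorem gen_of_norm {u : ℂ} (h : 1 < ‖u‖) : Gen u := by
  have h0 : u ≠ 0 := by
    rintro rfl
    simp at h
    linarith
  refine ⟨h0, fun n hn => ?_⟩
  unfold br
  rw [sub_ne_zero]
  intro he
  have h1 : (u ^ 2) ^ (n : ℤ) * (u ^ 2) ^ (n : ℤ) = 1 := by
    have h5 : (u ^ 2) ^ (-(n : ℤ)) * (u ^ 2) ^ (n : ℤ) = 1 := by
      rw [zpow_neg, inv_mul_cancel₀ (zpow_ne_zero _ (pow_ne_zero 2 h0))]
    rw [← he] at h5
    exact h5
  have h2 := congrArg (fun z : ℂ => ‖z‖) h1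
  simp only [norm_mul, norm_zpow, norm_pow, norm_one] at h2
  have h3 : 1 < (‖u‖ ^ 2) ^ (n : ℤ) := by
    rw [zpow_natCast]
    exact one_lt_pow₀ (one_lt_pow₀ h (by norm_num)) (by omega)
  nlinarith

/-- generic parameters converging to the root of unity -/
noncomputable def Fl (N : ℕ) : Filter ℂ := Filter.map (fun t : ℝ => (u0 N * t) ^ 2) (𝓝[>] 1)

instance (N : ℕ) : NeBot (Fl N) := by unfold Fl; infer_instance

theorem Fl_le (N : ℕ) : Fl N ≤ 𝓝 (rt N) := by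
  unfold Fl
  have h : ContinuousAt (fun t : ℝ => (u0 N * t) ^ 2) 1 := by fun_prop
  have h1 := h.tendsto
  have e : (u0 N * ((1 : ℝ) : ℂ)) ^ 2 = rt N := by rw [← u0_sq]; simp
  rw [e] at h1
  exact h1.mono_left nhdsWithin_le_nhds

theorem Fl_gen (N : ℕ) : ∀ᶠ v in Fl N, ∃ u, Gen u ∧ v = u ^ 2 := by
  unfold Fl
  rw [Filter.eventually_map]
  filter_upwards [self_mem_nhdsWithin] with t ht
  refine ⟨u0 N * t, gen_of_norm ?_, rfl⟩
  rw [norm_mul, u0_norm, one_mul, Complex.norm_real, Real.norm_eq_abs]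
  exact lt_of_lt_of_le ht (le_abs_self t)

theorem Fl_ne (N : ℕ) : ∀ᶠ v in Fl N, v ≠ 0 ∧ ∀ n : ℕ, 0 < n → br v n ≠ 0 := by
  filter_upwards [Fl_gen N] with v ⟨u, hu, hv⟩
  rw [hv]
  exact ⟨gen_v hu, hu.2⟩

/-- the passage to the limit -/
theorem lim_gen (hN : 0 < N) (s : ℤ) (m : ℕ) {μ T : ℕ} (_ : T < N) (hμ : μ + 2 * T + 2 = 2 * N)
    {X : ℂ → ℂ} {g : ℕ → ℂ → ℂ} (hX : ContinuousAt X (rt N))
    (hg : ∀ l, ContinuousAt (g l) (rt N))
    (h : ∀ u, Gen u → X (u ^ 2) = ∑ l ∈ range (T + 1), dd (f2 N s m 1 (u ^ 2)) (u ^ 2) μ l *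
      g l (u ^ 2)) :
    X (rt N) = ∑ l ∈ range (T + 1), (∑ i ∈ range (l + 1), tl N s m μ i l) * g l (rt N) := by
  have h1 : Tendsto (fun v => ∑ l ∈ range (T + 1), (∑ i ∈ range (l + 1), tv N s m μ i l v *
      (br v N * sk v N (μ + 1 + 2 * i) / brf v (μ + 1 + i + l))) * g l v) (Fl N)
      (𝓝 (∑ l ∈ range (T + 1), (∑ i ∈ range (l + 1), tl N s m μ i l) * g l (rt N))) := by
    refine tendsto_finsetSum _ fun l hl => ?_
    rw [mem_range] at hl
    refine Tendsto.mul ?_ ((hg l).tendsto.mono_left (Fl_le N))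
    refine tendsto_finsetSum _ fun i hi => ?_
    rw [mem_range] at hi
    exact tl_lim hN s m μ (by omega) (by omega) (by omega) (by omega) (Fl_le N) (Fl_ne N)
  have h2 : Tendsto X (Fl N) (𝓝 (X (rt N))) := hX.tendsto.mono_left (Fl_le N)
  refine tendsto_nhds_unique (h2.congr' ?_) h1
  filter_upwards [Fl_gen N] with v ⟨u, hu, hv⟩
  rw [hv, h u hu]
  refine sum_congr rfl fun l _ => ?_
  congr 1
  unfold dd ddn
  refine sum_congr rfl fun i hi => ?_
  rw [mem_range] at hi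
  exact term_eq hu s m μ (by omega)

end Pool.Agent.Q99.FW
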