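import Pool.Agent.Q99.FW.Entry

/-!
Layers of encircled twist regions: operators and matrices.
-/

set_option autoImplicit false

namespace Pool.Agent.Q99.FW

open Matrix Finset
open Pool.Agent.W709.QAT (Piece run)
open Pool.Agent.W715.VC (rt)
open Pool.Agent.Q191.FT (Tp toL Rep)
open Pool.Agent.Q191.SH (X2 e2 aw Rep_aw)
open Pool.Agent.Q191.TW (Mt dl ev od evp odp Um Rm ofFn_inj kl)
open Pool.Agent.Q191.TB (Gd mg sh1 HatG Gd_cup Gd_cap Gd_twist run_app)

variable {N : ℕ}

/-- the matrix of a circle with `m` crossings -/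
noncomputable def Xm (N : ℕ) (σ : Bool) (m : ℕ) : Mt N := fun p q =>
  X2 σ N m 1 (rt N) ((e2 N).symm p) ((e2 N).symm q)

theorem run_aw0 (σ : Bool) (m : ℕ) (f : List (Fin N) → ℂ) (a b : Fin N) (r : List (Fin N)) :
    run N (rt N) (aw 0 σ m 1) f (a :: b :: r) =
      ∑ q : Fin N × Fin N, Xm N σ m (a, b) q * f (q.1 :: q.2 :: r) := by
  have h := Rep_aw (rt0 N) (fun k h0 h => brne h0 h) 0 σ m 1 [] r rfl f ((e2 N).symm (a, b))
  have e : ∀ q : Fin N × Fin N, ([] : List (Fin N)) ++ (toL 2 ((e2 N).symm q) ++ r) =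
      q.1 :: q.2 :: r := fun q => rfl
  rw [e] at h
  rw [h, sum_e2]
  rfl

/-- one more strand on the left -/
def shQ : Piece → Piece
  | .cup i => .cup (i + 1)
  | .cap i => .cap (i + 1)
  | .twist i σ m => .twist (i + 1) σ m

theorem shQ_act {v : ℂ} (P : Piece) (f : List (Fin N) → ℂ) (a : Fin N) (r : List (Fin N)) :
    (shQ P).act N v f (a :: r) = P.act N v (fun r' => f (a :: r')) r := by
  cases P <;> rfl

theorem shQ_run {v : ℂ} : ∀ (D : List Piece) (f : List (Fin N) → ℂ) (a : Fin N)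
    (r : List (Fin N)), run N v (D.map shQ) f (a :: r) = run N v D (fun r' => f (a :: r')) r
  | [], _, _, _ => rfl
  | P :: D, f, a, r => by
    show run N v (D.map shQ) ((shQ P).act N v f) (a :: r) =
      run N v D (P.act N v fun r' => f (a :: r')) r
    rw [shQ_run D]
    congr 1
    funext r'
    exact shQ_act P f a r'

theorem Gd_shQ {v : ℂ} {p p' : ℕ} {D : List Piece} (h : Gd (N := N) p p' (run N v D)) :
    Gd (N := N) (p + 1) (p' + 1) (run N v (D.map shQ)) := by
  refine h.sh.congr fun f l hl => ?_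
  obtain ⟨a, r, rfl⟩ := List.exists_cons_of_length_eq_add_one hl
  exact shQ_run D f a r

theorem Gd_app {v : ℂ} {p p' p'' : ℕ} {D D' : List Piece} (h : Gd (N := N) p' p'' (run N v D))
    (h' : Gd (N := N) p p' (run N v D')) : Gd (N := N) p p'' (run N v (D ++ D')) :=
  (h'.comp h).congr fun f l _ => by rw [run_app]

/-- the region in the first place -/
theorem Gd_aw0 (σ : Bool) (m p : ℕ) :
    Gd (N := N) (p + 2) (p + 2) (run N (rt N) (aw 0 σ m 1)) := by
  have h : aw 0 σ m 1 = [Piece.cup 2] ++ ([Piece.twist 1 true 1] ++ ([Piece.twist 0 true 1] ++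
      ([Piece.twist 0 true 1] ++ ([Piece.twist 1 true 1] ++ ([Piece.cap 2] ++
        [Piece.twist 0 σ m]))))) := rfl
  rw [h]
  refine Gd_app (p' := p + 2 + 2) (Gd_cup 2 (p + 2) (by omega)) ?_
  refine Gd_app (Gd_twist (by omega) 1 true) ?_
  refine Gd_app (Gd_twist (by omega) 1 true) ?_
  refine Gd_app (Gd_twist (by omega) 1 true) ?_
  refine Gd_app (Gd_twist (by omega) 1 true) ?_
  exact Gd_app (Gd_cap 2 (p + 2) (by omega)) (Gd_twist (by omega) m σ)

/-- a layer of encircled twist regions -/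
def lw : (n : ℕ) → (Fin n → Bool) → (Fin n → ℕ) → List Piece
  | 0, _, _ => []
  | n + 1, σ, m => aw 0 (σ 0) (m 0) 1 ++
      ((lw n (fun k => σ k.succ) (fun k => m k.succ)).map shQ).map shQ

theorem Gd_lw : ∀ (n : ℕ) (σ : Fin n → Bool) (m : Fin n → ℕ),
    Gd (N := N) (2 * n) (2 * n) (run N (rt N) (lw n σ m))
  | 0, _, _ => Pool.Agent.Q191.TB.Gd_id _
  | n + 1, σ, m => Gd_app (Gd_aw0 (σ 0) (m 0) (2 * n)) (Gd_shQ (Gd_shQ (Gd_lw n _ _)))

/-- the matrix of a layer -/
theorem mg_lw : ∀ (n : ℕ) (σ : Fin n → Bool) (m : Fin n → ℕ) (u t : Fin (2 * n) → Fin N),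
    mg (2 * n) (2 * n) (run N (rt N) (lw n σ m)) u t =
      ∏ k : Fin n, Xm N (σ k) (m k) (u (ev k), u (od k)) (t (ev k), t (od k))
  | 0, _, _, u, t => by
    have h1 : List.ofFn u = [] := List.eq_nil_of_length_eq_zero (by simp)
    have h2 : List.ofFn t = [] := List.eq_nil_of_length_eq_zero (by simp)
    rw [mg, h1, h2]
    simp [lw, run, dl]
  | n + 1, σ, m, u, t => by
    have hu : List.ofFn u = u (ev 0) :: u (od 0) ::
        List.ofFn (fun i : Fin (2 * n) => u ⟨(i : ℕ) + 2, by have := i.2; omega⟩) := by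
      have : List.ofFn u = List.ofFn (n := 2 * n + 1 + 1) u := rfl
      rw [this, List.ofFn_succ, List.ofFn_succ]
      rfl
    have ht : List.ofFn t = t (ev 0) :: t (od 0) ::
        List.ofFn (fun i : Fin (2 * n) => t ⟨(i : ℕ) + 2, by have := i.2; omega⟩) := by
      have : List.ofFn t = List.ofFn (n := 2 * n + 1 + 1) t := rfl
      rw [this, List.ofFn_succ, List.ofFn_succ]
      rfl
    set t' : Fin (2 * n) → Fin N := fun i => t ⟨(i : ℕ) + 2, by have := i.2; omega⟩ with ht'
    set u' : Fin (2 * n) → Fin N := fun i => u ⟨(i : ℕ) + 2, by have := i.2; omega⟩ with hu'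
    rw [mg, hu, ht, lw, run_app, shQ_run, shQ_run]
    have h1 : (fun r : List (Fin N) => run N (rt N) (aw 0 (σ 0) (m 0) 1)
        (dl (t (ev 0) :: t (od 0) :: List.ofFn t')) (u (ev 0) :: u (od 0) :: r)) =
        fun r => Xm N (σ 0) (m 0) (u (ev 0), u (od 0)) (t (ev 0), t (od 0)) *
          dl (List.ofFn t') r := by
      funext r
      rw [run_aw0, Finset.sum_eq_single (t (ev 0), t (od 0))]
      · congr 1
        simp [dl]
      · rintro ⟨q1, q2⟩ _ hq
        rw [dl, if_neg, mul_zero]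
        intro h3
        simp only [List.cons.injEq] at h3
        exact hq (Prod.ext h3.1 h3.2.1)
      · intro h; exact absurd (mem_univ _) h
    rw [h1, (Gd_lw n _ _).smul _ _ _ (by simp)]
    have h2 := mg_lw n (fun k => σ k.succ) (fun k => m k.succ) u' t'
    rw [mg] at h2
    rw [h2, Fin.prod_univ_succ]
    rfl

end Pool.Agent.Q99.FW
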