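import Pool.Agent.Q99.FW.Kon

/-!
The sum over the intermediate states.
-/

set_option autoImplicit false

namespace Pool.Agent.Q99.FW

open Finset Filter Topology
open Pool.Agent.H550R3.Jones (WM IsMod Gen br brf tens irr W)
open Pool.Agent.W715.VC (rt)
open Pool.Agent.Q191.TW (cs cs_add cs_zero cs_ne cs_period rt_cs I_pow brf_rt)
open Pool.Agent.W719.BS (D D_pos D_refl)

variable {N : ℕ}

theorem TZ1 {p q : ℕ} (hp : p ≤ q) (hq : q < N) :
    TZ N p ((q : ℤ) - p) (N - 1 - q) = D N q / (D N p * D N (q - p)) := by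
  rw [TZ_of (by omega) (by omega) (by omega)]
  have e1 : ((q : ℤ) - p).toNat = q - p := by omega
  have e3 : ((N : ℤ) - 1 - q).toNat = N - 1 - q := by omega
  rw [e1, e3, Int.toNat_natCast]
  unfold Tri
  rw [← D_co (N := N) (n := q) (k := N - 1 - q) (by omega)]
  have h1 := (D_pos N p (by omega)).ne'
  have h4 := (D_pos N (q - p) (by omega)).ne'
  have h5 := (D_pos N (N - 1 - q) (by omega)).ne'
  field_simp

/-- the scalars of `E ^ l` -/
theorem fac_eq {l p1 p2 q1 q2 : ℕ} (h1 : q1 < N) (h2 : q2 < N) (hs : p1 + p2 + l = q1 + q2)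
    (hp1 : p1 ≤ q1) (hp2 : p2 ≤ q2) :
    (brf (rt N) l / (brf (rt N) (q1 - p1) * brf (rt N) (q2 - p2))) *
      (brf (rt N) q1 * brf (rt N) q2 / (brf (rt N) p1 * brf (rt N) p2)) =
    Complex.I ^ l * (D N l : ℂ) * ((TZ N p1 ((q1 : ℤ) - p1) (N - 1 - q1) *
      TZ N p2 ((q2 : ℤ) - p2) (N - 1 - q2) : ℝ) : ℂ) := by
  rw [TZ1 hp1 h1, TZ1 hp2 h2]
  simp only [brf_rt]
  have hI : Complex.I ≠ 0 := Complex.I_ne_zero
  have r1 : (D N p1 : ℂ) ≠ 0 := by exact_mod_cast (D_pos N p1 (by omega)).ne'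
  have r2 : (D N p2 : ℂ) ≠ 0 := by exact_mod_cast (D_pos N p2 (by omega)).ne'
  have r3 : (D N (q1 - p1) : ℂ) ≠ 0 := by exact_mod_cast (D_pos N (q1 - p1) (by omega)).ne'
  have r4 : (D N (q2 - p2) : ℂ) ≠ 0 := by exact_mod_cast (D_pos N (q2 - p2) (by omega)).ne'
  have e1 : Complex.I ^ q1 = Complex.I ^ p1 * Complex.I ^ (q1 - p1) := by
    rw [← pow_add]; congr 1; omega
  have e2 : Complex.I ^ q2 = Complex.I ^ p2 * Complex.I ^ (q2 - p2) := by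
    rw [← pow_add]; congr 1; omega
  rw [e1, e2]
  have s1 : Complex.I ^ p1 ≠ 0 := pow_ne_zero _ hI
  have s2 : Complex.I ^ p2 ≠ 0 := pow_ne_zero _ hI
  have s3 : Complex.I ^ (q1 - p1) ≠ 0 := pow_ne_zero _ hI
  have s4 : Complex.I ^ (q2 - p2) ≠ 0 := pow_ne_zero _ hI
  push_cast
  generalize Complex.I ^ p1 = x1 at *
  generalize Complex.I ^ p2 = x2 at *
  generalize Complex.I ^ (q1 - p1) = x3 at *
  generalize Complex.I ^ (q2 - p2) = x4 at *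
  generalize Complex.I ^ l = x5 at *
  field_simp

/-- a term of the sum over the intermediate states -/
noncomputable def gt (N : ℕ) (a b c d l p : ℤ) : ℂ :=
  cs N (qe N a b c d l p : ℝ) *
    ((TZ N p (a - p) (N - 1 - a) * TZ N p (c - p) (N - 1 - c) *
      (TZ N (rr a b l p) (b - rr a b l p) (N - 1 - b) *
        TZ N (rr a b l p) (d - rr a b l p) (N - 1 - d)) : ℝ) : ℂ)

theorem prod_eq (_ : 0 < N) {l a b c d p r : ℕ} (ha : a < N) (hb : b < N) (hc : c < N) (hd : d < N)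
    (hT : a + b = c + d) (hr : p + r + l = a + b) (h1 : p ≤ a) (h2 : p ≤ c) (h3 : r ≤ b)
    (h4 : r ≤ d) :
    ffe N l c d p r * ee N l p r a b = (-1) ^ l * (D N l : ℂ) ^ 2 * gt N a b c d l p := by
  rw [ffe, if_pos ⟨by omega, h2, h4⟩, ee, if_pos ⟨by omega, h1, h3⟩]
  have er : rr (a : ℤ) b l p = (r : ℤ) := by unfold rr; omega
  have f1 := fac_eq ha hb (show p + r + l = a + b by omega) h1 h3
  have f2 := fac_eq hc hd (show p + r + l = c + d by omega) h2 h4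
  have eI : Complex.I ^ l * Complex.I ^ l = (-1) ^ l := by
    rw [← mul_pow, Complex.I_mul_I]
  have ee1 : (rt N) ^ (((c : ℤ) - p) * ((d : ℤ) - r) - ((d : ℤ) - r) * ((N : ℤ) - 1 - 2 * p)) *
      (rt N) ^ (((a : ℤ) - p) * ((b : ℤ) - r) + ((a : ℤ) - p) * ((N : ℤ) - 1 - 2 * b)) =
      cs N (qe N a b c d l p : ℝ) := by
    rw [← zpow_add₀ (rt0 N), rt_cs]
    congr 1
    unfold qe
    rw [er]
    push_cast
    ring
  unfold gt
  rw [er, ← ee1]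
  rw [mul_assoc (rt N ^ _) (_ / _) (_ / _), mul_assoc (rt N ^ _) (_ / _) (_ / _), f1, f2, ← eI]
  push_cast
  ring

/-- **the sum over the intermediate states** -/
theorem ef_sum (hN : 0 < N) {l a b c d : ℕ} (ha : a < N) (hb : b < N) (hc : c < N) (hd : d < N) :
    ∑ r : Fin N × Fin N, ffe N l c d r.1 r.2 * ee N l r.1 r.2 a b =
      if a + b = c + d then (-1) ^ l * (D N l : ℂ) ^ 2 * ∑ p ∈ range N, gt N a b c d l p else 0 := by
  split_ifs with hT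
  swap
  · refine sum_eq_zero fun r _ => ?_
    unfold ffe ee
    by_cases h1 : (r.1 : ℕ) + r.2 + l = c + d ∧ (r.1 : ℕ) ≤ c ∧ (r.2 : ℕ) ≤ d
    · have h2 : ¬ ((r.1 : ℕ) + r.2 + l = a + b ∧ (r.1 : ℕ) ≤ a ∧ (r.2 : ℕ) ≤ b) := by omega
      rw [if_neg h2, mul_zero]
    · rw [if_neg h1, zero_mul]
  rw [Fintype.sum_prod_type, mul_sum, Finset.sum_range]
  refine sum_congr rfl fun p _ => ?_
  change ∑ r : Fin N, ffe N l c d p r * ee N l p r a b = _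
  have hz : ¬ ((p : ℕ) ≤ a ∧ (p : ℕ) ≤ c ∧ (p : ℕ) + l ≤ a + b ∧ a + b ≤ b + p + l ∧
      a + b ≤ d + p + l) → gt N a b c d l (p : ℕ) = 0 := by
    intro h
    have h3 : ¬ (0 ≤ (p : ℤ) ∧ 0 ≤ (a : ℤ) - p ∧ 0 ≤ (N : ℤ) - 1 - a) ∨
        ¬ (0 ≤ (p : ℤ) ∧ 0 ≤ (c : ℤ) - p ∧ 0 ≤ (N : ℤ) - 1 - c) ∨
        ¬ (0 ≤ rr a b l p ∧ 0 ≤ (b : ℤ) - rr a b l p ∧ 0 ≤ (N : ℤ) - 1 - b) ∨
        ¬ (0 ≤ rr a b l p ∧ 0 ≤ (d : ℤ) - rr a b l p ∧ 0 ≤ (N : ℤ) - 1 - d) := by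
      unfold rr
      omega
    unfold gt
    rcases h3 with h3 | h3 | h3 | h3
    all_goals rw [TZ_zero (N := N) h3]; simp
  by_cases h : (p : ℕ) ≤ a ∧ (p : ℕ) ≤ c ∧ (p : ℕ) + l ≤ a + b ∧ a + b ≤ b + p + l ∧
      a + b ≤ d + p + l
  · obtain ⟨h1, h2, h3, h4, h5⟩ := h
    obtain ⟨r, hr⟩ : ∃ r : ℕ, p + r + l = a + b := ⟨a + b - p - l, by omega⟩
    have hrN : r < N := by omega
    rw [Finset.sum_eq_single (⟨r, hrN⟩ : Fin N)]
    · have h6 : r ≤ b := by omega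
      have h7 : r ≤ d := by omega
      exact prod_eq hN ha hb hc hd hT hr h1 h2 h6 h7
    · intro r' _ hr'
      have h6 : (r' : ℕ) ≠ r := fun h => hr' (Fin.ext h)
      unfold ee
      rw [if_neg (fun h7 => h6 (by omega)), mul_zero]
    · intro h; exact absurd (mem_univ _) h
  · rw [hz h, mul_zero]
    refine sum_eq_zero fun r _ => ?_
    unfold ffe ee
    by_cases h1 : (p : ℕ) + r + l = c + d ∧ (p : ℕ) ≤ c ∧ (r : ℕ) ≤ d
    · have h2 : ¬ ((p : ℕ) + r + l = a + b ∧ (p : ℕ) ≤ a ∧ (r : ℕ) ≤ b) := by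
        intro h2
        apply h
        omega
      rw [if_neg h2, mul_zero]
    · rw [if_neg h1, zero_mul]

end Pool.Agent.Q99.FW
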