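import Pool.Agent.Q99.FW.Ent

/-!
The entries of the operator of a circle with `m` crossings, at the root of unity.
-/

set_option autoImplicit false

namespace Pool.Agent.Q99.FW

open Matrix Finset Filter Topology
open Pool.Agent.H550R3.Jones (WM IsMod Gen br brf tens irr W)
open Pool.Agent.W715.VC (rt)
open Pool.Agent.Q191.FT
open Pool.Agent.Q191.LB (sg sg_or)
open Pool.Agent.Q191.SH (X2 X2_diff e2)
open Pool.Agent.W719.BS (D)

variable {N : ℕ}

/-- the sum of an entry, both cases -/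
noncomputable def S2 (w : ℝ) (N : ℕ) (a b c d : ℤ) : ℂ :=
  if a + b + 1 ≤ N then SS w N a b c d
  else SS w N (N - 1 - b) (N - 1 - a) (N - 1 - d) (N - 1 - c)

/-- **the entries of the operator of a circle with `m` crossings** -/
theorem X2_entry (σ : Bool) (m : ℕ) (s t : Tp N 2) :
    X2 σ N m 1 (rt N) s t =
      if ((e2 N s).1 : ℕ) + (e2 N s).2 = (e2 N t).1 + (e2 N t).2 then
        Kg N (sg σ) ^ m * K2 N * S2 (sg σ * m) N ((e2 N t).1 : ℕ) ((e2 N t).2 : ℕ)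
          ((e2 N s).1 : ℕ) ((e2 N s).2 : ℕ) else 0 := by
  have ha := (e2 N t).1.2
  have hb := (e2 N t).2.2
  have hc := (e2 N s).1.2
  have hd := (e2 N s).2.2
  have hN : 0 < N := by omega
  have hX : ContinuousAt (fun v => X2 σ N m 1 v s t) (rt N) :=
    (X2_diff (rt0 N) (fun k h0 h => brne h0 h) σ m 1 s t).continuousAt
  rcases Nat.lt_or_ge (((e2 N t).1 : ℕ) + (e2 N t).2) N with h | h
  · obtain ⟨k, hk⟩ : ∃ k, ((e2 N t).1 : ℕ) + (e2 N t).2 + k + 1 = N :=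
      ⟨N - 1 - (((e2 N t).1 : ℕ) + (e2 N t).2), by omega⟩
    have h1 := lim_gen hN (sg σ) m (μ := 2 * k) (T := ((e2 N t).1 : ℕ) + (e2 N t).2) h (by omega) hX
      (fun l => g1_cont (e2 N s) (e2 N t) l) (fun u hu => X2_gen1 σ m s t rfl hk hu)
    have h2 : ∀ l ∈ range (((e2 N t).1 : ℕ) + (e2 N t).2 + 1), g1 N (e2 N s) (e2 N t) l (rt N) =
        if ((e2 N t).1 : ℕ) + (e2 N t).2 = (e2 N s).1 + (e2 N s).2 then (-1) ^ l * (D N l : ℂ) ^ 2 *
          ∑ p ∈ range N, gt N ((e2 N t).1 : ℕ) ((e2 N t).2 : ℕ)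
          ((e2 N s).1 : ℕ) ((e2 N s).2 : ℕ) l p else 0 := by
      intro l hl
      rw [mem_range] at hl
      rw [← ef_sum hN ha hb hc hd]
      unfold g1
      refine sum_congr rfl fun r _ => ?_
      rw [F_pow l (by omega), E_pow hN l (by omega)]
    rw [h1]
    split_ifs with hT
    · have h3 := sum_eq hN (sg_or σ) m (a := (e2 N t).1) (b := (e2 N t).2) (c := (e2 N s).1)
        (d := (e2 N s).2) rfl hk
      unfold S2
      rw [if_pos (by omega), ← h3]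
      refine sum_congr rfl fun l hl => ?_
      rw [h2 l hl, if_pos hT.symm]
    · refine sum_eq_zero fun l hl => ?_
      rw [h2 l hl, if_neg (fun h => hT h.symm), mul_zero]
  · obtain ⟨T, hT⟩ : ∃ T, ((e2 N t).1 : ℕ) + (e2 N t).2 + T + 2 = 2 * N :=
      ⟨2 * N - 2 - (((e2 N t).1 : ℕ) + (e2 N t).2), by omega⟩
    obtain ⟨k, hk⟩ : ∃ k, T + k + 1 = N := ⟨N - 1 - T, by omega⟩
    have h1 := lim_gen hN (sg σ) m (μ := 2 * k) (T := T) (by omega) (by omega) hX
      (fun l => g2_cont (e2 N s) (e2 N t) l) (fun u hu => X2_gen2 σ m s t hT hk hu)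
    have h2 : ∀ l ∈ range (T + 1), g2 N (e2 N s) (e2 N t) l (rt N) =
        if ((e2 N t).1 : ℕ) + (e2 N t).2 = (e2 N s).1 + (e2 N s).2 then (-1) ^ l * (D N l : ℂ) ^ 2 *
          ∑ p ∈ range N, gt N (N - 1 - (e2 N t).2 : ℕ) (N - 1 - (e2 N t).1 : ℕ)
          (N - 1 - (e2 N s).2 : ℕ) (N - 1 - (e2 N s).1 : ℕ) l p else 0 := by
      intro l hl
      rw [mem_range] at hl
      rw [← fe_sum hN ha hb hc hd]
      unfold g2
      refine sum_congr rfl fun r _ => ?_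
      rw [F_pow l (by omega), E_pow hN l (by omega)]
    rw [h1]
    split_ifs with hT2
    · have h3 := sum_eq hN (sg_or σ) m (a := N - 1 - (e2 N t).2) (b := N - 1 - (e2 N t).1)
        (c := N - 1 - (e2 N s).2) (d := N - 1 - (e2 N s).1) (T := T) (by omega) hk
      have c1 : ((N - 1 - ((e2 N t).2 : ℕ) : ℕ) : ℤ) = (N : ℤ) - 1 - ((e2 N t).2 : ℕ) := by omega
      have c2 : ((N - 1 - ((e2 N t).1 : ℕ) : ℕ) : ℤ) = (N : ℤ) - 1 - ((e2 N t).1 : ℕ) := by omega
      have c3 : ((N - 1 - ((e2 N s).2 : ℕ) : ℕ) : ℤ) = (N : ℤ) - 1 - ((e2 N s).2 : ℕ) := by omega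
      have c4 : ((N - 1 - ((e2 N s).1 : ℕ) : ℕ) : ℤ) = (N : ℤ) - 1 - ((e2 N s).1 : ℕ) := by omega
      unfold S2
      rw [if_neg (by omega), ← c1, ← c2, ← c3, ← c4, ← h3]
      refine sum_congr rfl fun l hl => ?_
      rw [h2 l hl, if_pos hT2.symm]
    · refine sum_eq_zero fun l hl => ?_
      rw [h2 l hl, if_neg (fun h => hT2 h.symm), mul_zero]

end Pool.Agent.Q99.FW
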