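import Pool.Agent.Q99.FW.Stm
import Pool.Agent.Q191.SH.Aug

/-!
The entries of the powers of `E` and `F` on `V_N ⊗ V_N` at the root of unity.
-/

set_option autoImplicit false

namespace Pool.Agent.Q99.FW

open Matrix Finset
open Pool.Agent.H550R3.Jones (WM IsMod Gen br brf tens irr W)
open Pool.Agent.W715.VC (rt)

variable {N : ℕ}

theorem rt0 (N : ℕ) : rt N ≠ 0 := Complex.exp_ne_zero _

theorem brf0 (v : ℂ) : brf v 0 = 1 := by simp [brf]

theorem brfS (v : ℂ) (n : ℕ) : brf v (n + 1) = brf v n * br v ((n : ℤ) + 1) :=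
  Pool.Agent.H559R3.J.brf_succ v n

theorem brne {n : ℕ} (h0 : 0 < n) (h : n < N) : br (rt N) n ≠ 0 :=
  Pool.Agent.W613.QAT.br_rt n h0 h

theorem brne1 {n : ℕ} (h : n + 1 < N) : br (rt N) ((n : ℤ) + 1) ≠ 0 := by
  have := brne (N := N) (n := n + 1) (by omega) h
  push_cast at this
  exact this

theorem brfne {n : ℕ} (h : n < N) : brf (rt N) n ≠ 0 := by
  induction n with
  | zero => rw [brf0]; exact one_ne_zero
  | succ n ih => rw [brfS]; exact mul_ne_zero (ih (by omega)) (brne1 h)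

theorem rtN (hN : 0 < N) : rt N ^ (N : ℤ) = -1 := Pool.Agent.W715.VC.rt_zpow_N hN

theorem br_Nsub (hN : 0 < N) (k : ℤ) : br (rt N) ((N : ℤ) - k) = br (rt N) k := by
  unfold br
  have h := rtN hN
  have h0 := rt0 N
  have e1 : rt N ^ ((N : ℤ) - k) = -rt N ^ (-k) := by
    rw [sub_eq_add_neg, zpow_add₀ h0, h]; ring
  have e2 : rt N ^ (-((N : ℤ) - k)) = -rt N ^ k := by
    have : -((N : ℤ) - k) = k - N := by ring
    rw [this, sub_eq_add_neg, zpow_add₀ h0, _root_.zpow_neg, h]; norm_num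
  rw [e1, e2]; ring

/-! ### powers of `E` -/

/-- the entries of `E ^ l` -/
noncomputable def ee (N l p1 p2 q1 q2 : ℕ) : ℂ :=
  if p1 + p2 + l = q1 + q2 ∧ p1 ≤ q1 ∧ p2 ≤ q2 then
    rt N ^ (((q1 : ℤ) - p1) * ((q2 : ℤ) - p2) + ((q1 : ℤ) - p1) * ((N : ℤ) - 1 - 2 * q2)) *
      (brf (rt N) l / (brf (rt N) (q1 - p1) * brf (rt N) (q2 - p2))) *
      (brf (rt N) q1 * brf (rt N) q2 / (brf (rt N) p1 * brf (rt N) p2)) else 0

theorem br_addE {v : ℂ} (hv : v ≠ 0) (x y : ℤ) :
    br v (x + y) = br v x * v ^ y + br v y * v ^ (-x) := by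
  unfold br
  have e1 : v ^ (x + y) = v ^ x * v ^ y := zpow_add₀ hv _ _
  have e2 : v ^ (-(x + y)) = v ^ (-x) * v ^ (-y) := by rw [← zpow_add₀ hv]; congr 1; ring
  rw [e1, e2]; ring

theorem ee_succ {l p1 p2 q1 q2 : ℕ} (_ : l + 1 < N) (h1 : q1 < N) (h2 : q2 < N) :
    ee N (l + 1) p1 p2 q1 q2 =
      br (rt N) ((p1 : ℤ) + 1) * rt N ^ ((N : ℤ) - 1 - 2 * p2) * ee N l (p1 + 1) p2 q1 q2 +
      br (rt N) ((p2 : ℤ) + 1) * ee N l p1 (p2 + 1) q1 q2 := by
  have h0 := rt0 N
  by_cases hc : p1 + p2 + (l + 1) = q1 + q2 ∧ p1 ≤ q1 ∧ p2 ≤ q2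
  · obtain ⟨hs, ha, hb⟩ := hc
    obtain ⟨x, rfl⟩ := Nat.exists_eq_add_of_le ha
    obtain ⟨y, rfl⟩ := Nat.exists_eq_add_of_le hb
    have hxy : x + y = l + 1 := by omega
    have hp1 := brfne (N := N) (n := p1) (by omega)
    have hp2 := brfne (N := N) (n := p2) (by omega)
    have hx := brfne (N := N) (n := x) (by omega)
    have hy := brfne (N := N) (n := y) (by omega)
    set C : ℂ := rt N ^ ((x : ℤ) * y + (x : ℤ) * ((N : ℤ) - 1 - 2 * (p2 + y))) * brf (rt N) l *
      (brf (rt N) (p1 + x) * brf (rt N) (p2 + y)) /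
      (brf (rt N) x * brf (rt N) y * (brf (rt N) p1 * brf (rt N) p2)) with hC
    have t0 : ee N (l + 1) p1 p2 (p1 + x) (p2 + y) = C * br (rt N) ((x : ℤ) + y) := by
      rw [ee, if_pos ⟨by omega, by omega, by omega⟩, Nat.add_sub_cancel_left,
        Nat.add_sub_cancel_left, brfS, hC]
      have e : ((x : ℤ) + y) = (l : ℤ) + 1 := by exact_mod_cast hxy
      rw [e]
      have e1 : (((p1 + x : ℕ) : ℤ) - p1) * (((p2 + y : ℕ) : ℤ) - p2) +
          (((p1 + x : ℕ) : ℤ) - p1) * ((N : ℤ) - 1 - 2 * ((p2 + y : ℕ) : ℤ)) =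
          (x : ℤ) * y + (x : ℤ) * ((N : ℤ) - 1 - 2 * (p2 + y)) := by push_cast; ring
      rw [e1]
      field_simp
    have t1 : br (rt N) ((p1 : ℤ) + 1) * rt N ^ ((N : ℤ) - 1 - 2 * p2) *
        ee N l (p1 + 1) p2 (p1 + x) (p2 + y) = C * (br (rt N) x * rt N ^ (y : ℤ)) := by
      rcases x with _ | x
      · rw [ee, if_neg (by omega), Nat.cast_zero, Pool.Agent.W715.VC.br_zero]; ring
      · rw [ee, if_pos ⟨by omega, by omega, by omega⟩]
        have e1 : p1 + (x + 1) - (p1 + 1) = x := by omega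
        have e2 : p2 + y - p2 = y := by omega
        rw [e1, e2, brfS (rt N) p1, hC]
        have hx' := brfne (N := N) (n := x) (by omega)
        have hb := brne1 (N := N) (n := p1) (by omega)
        have hbx := brne1 (N := N) (n := x) (by omega)
        have e3 : (((x + 1 : ℕ) : ℤ)) = (x : ℤ) + 1 := by push_cast; ring
        have e4 : rt N ^ ((((x + 1 : ℕ) : ℤ)) * y + (((x + 1 : ℕ) : ℤ)) *
            ((N : ℤ) - 1 - 2 * (p2 + y))) * rt N ^ (y : ℤ) =
            rt N ^ ((N : ℤ) - 1 - 2 * p2) * rt N ^ ((((p1 + (x + 1) : ℕ) : ℤ) - ((p1 + 1 : ℕ) : ℤ)) *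
              (((p2 + y : ℕ) : ℤ) - p2) +
          (((p1 + (x + 1) : ℕ) : ℤ) - ((p1 + 1 : ℕ) : ℤ)) *
            ((N : ℤ) - 1 - 2 * ((p2 + y : ℕ) : ℤ))) := by
          rw [← zpow_add₀ h0, ← zpow_add₀ h0]
          congr 1
          push_cast; ring
        rw [e3] at e4 ⊢
        rw [brfS (rt N) x]
        field_simp
        linear_combination (-brf (rt N) l * brf (rt N) (p1 + (x + 1)) * brf (rt N) (p2 + y)) * e4
    have t2 : br (rt N) ((p2 : ℤ) + 1) * ee N l p1 (p2 + 1) (p1 + x) (p2 + y) =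
        C * (br (rt N) y * rt N ^ (-(x : ℤ))) := by
      rcases y with _ | y
      · rw [ee, if_neg (by omega), Nat.cast_zero, Pool.Agent.W715.VC.br_zero]; ring
      · rw [ee, if_pos ⟨by omega, by omega, by omega⟩]
        have e1 : p2 + (y + 1) - (p2 + 1) = y := by omega
        have e2 : p1 + x - p1 = x := by omega
        rw [e1, e2, brfS (rt N) p2, hC]
        have hy' := brfne (N := N) (n := y) (by omega)
        have hb := brne1 (N := N) (n := p2) (by omega)
        have hby := brne1 (N := N) (n := y) (by omega)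
        have e3 : (((y + 1 : ℕ) : ℤ)) = (y : ℤ) + 1 := by push_cast; ring
        have e4 : rt N ^ ((x : ℤ) * ((y + 1 : ℕ) : ℤ) + (x : ℤ) *
            ((N : ℤ) - 1 - 2 * (p2 + ((y + 1 : ℕ) : ℤ)))) * rt N ^ (-(x : ℤ)) =
            rt N ^ ((((p1 + x : ℕ) : ℤ) - (p1 : ℤ)) *
              (((p2 + (y + 1) : ℕ) : ℤ) - ((p2 + 1 : ℕ) : ℤ)) +
          (((p1 + x : ℕ) : ℤ) - (p1 : ℤ)) *
            ((N : ℤ) - 1 - 2 * ((p2 + (y + 1) : ℕ) : ℤ))) := by
          rw [← zpow_add₀ h0]
          congr 1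
          push_cast; ring
        rw [e3] at e4 ⊢
        rw [brfS (rt N) y]
        field_simp
        linear_combination (-brf (rt N) l * brf (rt N) (p1 + x) * brf (rt N) (p2 + (y + 1))) * e4
    rw [t0, t1, t2, br_addE h0]
    ring
  · rw [ee, if_neg hc, ee, if_neg (fun h => hc (by omega)), ee, if_neg (fun h => hc (by omega))]
    ring

theorem W_E_mul (hN : 0 < N) (M : Matrix (Fin N × Fin N) (Fin N × Fin N) ℂ)
    (g : ℕ → ℕ → Fin N × Fin N → ℂ) (hM : ∀ p q, M p q = g p.1 p.2 q)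
    (h1 : ∀ x q, g N x q = 0) (h2 : ∀ x q, g x N q = 0) (p q : Fin N × Fin N) :
    ((W (rt N) N).E * M) p q =
      br (rt N) (((p.1 : ℕ) : ℤ) + 1) * rt N ^ ((N : ℤ) - 1 - 2 * (p.2 : ℕ)) * g (p.1 + 1) p.2 q +
      br (rt N) (((p.2 : ℕ) : ℤ) + 1) * g p.1 (p.2 + 1) q := by
  obtain ⟨⟨a, ha⟩, ⟨b, hb⟩⟩ := p
  rw [Matrix.mul_apply, Fintype.sum_prod_type]
  have hE : ∀ r1 r2 : Fin N, (W (rt N) N).E (⟨a, ha⟩, ⟨b, hb⟩) (r1, r2) =
      (if (r1 : ℕ) = a + 1 then br (rt N) ((N : ℤ) - (r1 : ℕ)) else 0) *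
        (if (⟨b, hb⟩ : Fin N) = r2 then rt N ^ ((N : ℤ) - 1 - 2 * (b : ℕ)) else 0) +
      (if (⟨a, ha⟩ : Fin N) = r1 then 1 else 0) *
        (if (r2 : ℕ) = b + 1 then br (rt N) ((N : ℤ) - (r2 : ℕ)) else 0) := by
    intro r1 r2
    show (irr (rt N) N).E _ _ * (irr (rt N) N).K (rt N) 1 _ _ +
      (1 : Matrix (Fin N) (Fin N) ℂ) _ _ * (irr (rt N) N).E _ _ = _
    simp only [irr, WM.K, Matrix.diagonal_apply, Matrix.one_apply, one_mul]
  simp only [hE, add_mul]
  simp only [Finset.sum_add_distrib]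
  congr 1
  · rw [Finset.sum_congr rfl (g := fun r1 : Fin N => if (r1 : ℕ) = a + 1 then
      br (rt N) ((N : ℤ) - (r1 : ℕ)) * rt N ^ ((N : ℤ) - 1 - 2 * (b : ℕ)) *
        M (r1, ⟨b, hb⟩) q else 0)]
    · by_cases h : a + 1 < N
      · rw [Finset.sum_eq_single ⟨a + 1, h⟩]
        · rw [if_pos rfl, hM]
          have e : br (rt N) ((N : ℤ) - (((⟨a + 1, h⟩ : Fin N) : ℕ) : ℤ)) =
              br (rt N) ((a : ℤ) + 1) := by
            rw [br_Nsub hN]; push_cast; rfl
          rw [e]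
        · intro r _ hr
          rw [if_neg]
          intro h3
          exact hr (Fin.ext h3)
        · intro h3; exact absurd (Finset.mem_univ _) h3
      · have e : a + 1 = N := by omega
        rw [Finset.sum_eq_zero, show (((⟨a, ha⟩, ⟨b, hb⟩) : Fin N × Fin N).1 : ℕ) + 1 = N from e,
          h1, mul_zero]
        intro r _
        rw [if_neg]
        have := r.2
        omega
    · intro r1 _
      by_cases h : (r1 : ℕ) = a + 1
      · simp only [if_pos h]
        rw [Finset.sum_eq_single ⟨b, hb⟩]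
        · rw [if_pos rfl]
        · intro r _ hr
          rw [if_neg (fun h3 => hr h3.symm)]; ring
        · intro h3; exact absurd (Finset.mem_univ _) h3
      · simp only [if_neg h, zero_mul, Finset.sum_const_zero]
  · rw [Finset.sum_eq_single ⟨a, ha⟩]
    · simp only [if_true, one_mul]
      by_cases h : b + 1 < N
      · rw [Finset.sum_eq_single ⟨b + 1, h⟩]
        · rw [if_pos rfl, hM]
          have e : br (rt N) ((N : ℤ) - (((⟨b + 1, h⟩ : Fin N) : ℕ) : ℤ)) =
              br (rt N) ((b : ℤ) + 1) := by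
            rw [br_Nsub hN]; push_cast; rfl
          rw [e]
        · intro r _ hr
          rw [if_neg, zero_mul]
          intro h3
          exact hr (Fin.ext h3)
        · intro h3; exact absurd (Finset.mem_univ _) h3
      · have e : b + 1 = N := by omega
        rw [Finset.sum_eq_zero, show (((⟨a, ha⟩, ⟨b, hb⟩) : Fin N × Fin N).2 : ℕ) + 1 = N from e,
          h2, mul_zero]
        intro r _
        rw [if_neg, zero_mul]
        have := r.2
        omega
    · intro r _ hr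
      refine Finset.sum_eq_zero fun r2 _ => ?_
      rw [if_neg (fun h3 => hr h3.symm)]; ring
    · intro h3; exact absurd (Finset.mem_univ _) h3

theorem E_pow (hN : 0 < N) : ∀ (l : ℕ), l < N → ∀ p q : Fin N × Fin N,
    ((W (rt N) N).E ^ l) p q = ee N l p.1 p.2 q.1 q.2
  | 0, _, p, q => by
    rw [pow_zero, Matrix.one_apply, ee]
    by_cases h : p = q
    · subst h
      have h1 := brfne (N := N) (n := p.1) p.1.2
      have h2 := brfne (N := N) (n := p.2) p.2.2
      rw [if_pos rfl, if_pos ⟨by omega, le_rfl, le_rfl⟩]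
      simp only [sub_self, Nat.sub_self, zero_mul, add_zero, zpow_zero, brf0]
      field_simp
    · rw [if_neg h, if_neg]
      rintro ⟨h1, h2, h3⟩
      apply h
      apply Prod.ext <;> apply Fin.ext <;> omega
  | l + 1, hl, p, q => by
    rw [pow_succ', W_E_mul hN _ (fun a b q => ee N l a b q.1 q.2) (E_pow hN l (by omega))
      (fun x q => by rw [ee, if_neg]; have := q.1.2; omega)
      (fun x q => by rw [ee, if_neg]; have := q.2.2; omega), ee_succ hl q.1.2 q.2.2]

/-! ### powers of `F` -/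

/-- the entries of `F ^ l` -/
noncomputable def ffe (N l c1 c2 p1 p2 : ℕ) : ℂ :=
  if p1 + p2 + l = c1 + c2 ∧ p1 ≤ c1 ∧ p2 ≤ c2 then
    rt N ^ (((c1 : ℤ) - p1) * ((c2 : ℤ) - p2) - ((c2 : ℤ) - p2) * ((N : ℤ) - 1 - 2 * p1)) *
      (brf (rt N) l / (brf (rt N) (c1 - p1) * brf (rt N) (c2 - p2))) *
      (brf (rt N) c1 * brf (rt N) c2 / (brf (rt N) p1 * brf (rt N) p2)) else 0

theorem br_addF {v : ℂ} (hv : v ≠ 0) (x y : ℤ) :
    br v (x + y) = br v x * v ^ (-y) + br v y * v ^ x := by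
  unfold br
  have e1 : v ^ (x + y) = v ^ x * v ^ y := zpow_add₀ hv _ _
  have e2 : v ^ (-(x + y)) = v ^ (-x) * v ^ (-y) := by rw [← zpow_add₀ hv]; congr 1; ring
  rw [e1, e2]; ring

theorem ffe_succ {l c1 c2 p1 p2 : ℕ} (h1 : c1 < N) (h2 : c2 < N) :
    ffe N (l + 1) c1 c2 p1 p2 =
      br (rt N) (c1 : ℤ) * ffe N l (c1 - 1) c2 p1 p2 +
      rt N ^ (-((N : ℤ) - 1 - 2 * c1)) * br (rt N) (c2 : ℤ) * ffe N l c1 (c2 - 1) p1 p2 := by
  have h0 := rt0 N
  by_cases hc : p1 + p2 + (l + 1) = c1 + c2 ∧ p1 ≤ c1 ∧ p2 ≤ c2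
  · obtain ⟨hs, ha, hb⟩ := hc
    obtain ⟨x, rfl⟩ := Nat.exists_eq_add_of_le ha
    obtain ⟨y, rfl⟩ := Nat.exists_eq_add_of_le hb
    have hxy : x + y = l + 1 := by omega
    have hp1 := brfne (N := N) (n := p1) (by omega)
    have hp2 := brfne (N := N) (n := p2) (by omega)
    have hx := brfne (N := N) (n := x) (by omega)
    have hy := brfne (N := N) (n := y) (by omega)
    set C : ℂ := rt N ^ ((x : ℤ) * y - (y : ℤ) * ((N : ℤ) - 1 - 2 * p1)) * brf (rt N) l *
      (brf (rt N) (p1 + x) * brf (rt N) (p2 + y)) /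
      (brf (rt N) x * brf (rt N) y * (brf (rt N) p1 * brf (rt N) p2)) with hC
    have t0 : ffe N (l + 1) (p1 + x) (p2 + y) p1 p2 = C * br (rt N) ((x : ℤ) + y) := by
      rw [ffe, if_pos ⟨by omega, by omega, by omega⟩, Nat.add_sub_cancel_left,
        Nat.add_sub_cancel_left, brfS, hC]
      have e : ((x : ℤ) + y) = (l : ℤ) + 1 := by exact_mod_cast hxy
      rw [e]
      have e1 : (((p1 + x : ℕ) : ℤ) - p1) * (((p2 + y : ℕ) : ℤ) - p2) -
          (((p2 + y : ℕ) : ℤ) - p2) * ((N : ℤ) - 1 - 2 * p1) =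
          (x : ℤ) * y - (y : ℤ) * ((N : ℤ) - 1 - 2 * p1) := by push_cast; ring
      rw [e1]
      field_simp
    have t1 : br (rt N) (((p1 + x : ℕ) : ℤ)) * ffe N l (p1 + x - 1) (p2 + y) p1 p2 =
        C * (br (rt N) x * rt N ^ (-(y : ℤ))) := by
      rcases x with _ | x
      · have e0 : ffe N l (p1 + 0 - 1) (p2 + y) p1 p2 = 0 ∨ p1 = 0 := by
          rcases Nat.eq_zero_or_pos p1 with h | h
          · exact Or.inr h
          · left
            rw [ffe, if_neg]
            omega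
        rw [Nat.cast_zero, Pool.Agent.W715.VC.br_zero]
        rcases e0 with e0 | e0
        · rw [e0]; ring
        · subst e0
          simp [Pool.Agent.W715.VC.br_zero]
      · rw [ffe, if_pos ⟨by omega, by omega, by omega⟩]
        have e1 : p1 + (x + 1) - 1 - p1 = x := by omega
        have e2 : p2 + y - p2 = y := by omega
        have e5 : p1 + (x + 1) - 1 = p1 + x := by omega
        rw [e1, e2, e5, hC]
        have hx' := brfne (N := N) (n := x) (by omega)
        have hbx := brne1 (N := N) (n := x) (by omega)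
        have e6 : p1 + (x + 1) = p1 + x + 1 := by ring
        have e3 : (((x + 1 : ℕ) : ℤ)) = (x : ℤ) + 1 := by push_cast; ring
        have e7 : (((p1 + x + 1 : ℕ) : ℤ)) = ((p1 + x : ℕ) : ℤ) + 1 := by push_cast; ring
        have e4 : rt N ^ ((((x + 1 : ℕ) : ℤ)) * y - (y : ℤ) * ((N : ℤ) - 1 - 2 * p1)) *
            rt N ^ (-(y : ℤ)) =
            rt N ^ ((((p1 + x : ℕ) : ℤ) - (p1 : ℤ)) * (((p2 + y : ℕ) : ℤ) - p2) -
          (((p2 + y : ℕ) : ℤ) - p2) * ((N : ℤ) - 1 - 2 * (p1 : ℤ))) := by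
          rw [← zpow_add₀ h0]
          congr 1
          push_cast; ring
        rw [e6, e7, brfS (rt N) (p1 + x)]
        rw [e3] at e4 ⊢
        rw [brfS (rt N) x]
        field_simp
        linear_combination (-brf (rt N) l * brf (rt N) (p2 + y) * br (rt N) (((p1 + x : ℕ) : ℤ) + 1) * brf (rt N) (p1 + x)) * e4
    have t2 : rt N ^ (-((N : ℤ) - 1 - 2 * ((p1 + x : ℕ) : ℤ))) * br (rt N) (((p2 + y : ℕ) : ℤ)) *
        ffe N l (p1 + x) (p2 + y - 1) p1 p2 = C * (br (rt N) y * rt N ^ (x : ℤ)) := by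
      rcases y with _ | y
      · have e0 : ffe N l (p1 + x) (p2 + 0 - 1) p1 p2 = 0 ∨ p2 = 0 := by
          rcases Nat.eq_zero_or_pos p2 with h | h
          · exact Or.inr h
          · left
            rw [ffe, if_neg]
            omega
        rw [Nat.cast_zero, Pool.Agent.W715.VC.br_zero]
        rcases e0 with e0 | e0
        · rw [e0]; ring
        · subst e0
          simp [Pool.Agent.W715.VC.br_zero]
      · rw [ffe, if_pos ⟨by omega, by omega, by omega⟩]
        have e1 : p2 + (y + 1) - 1 - p2 = y := by omega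
        have e2 : p1 + x - p1 = x := by omega
        have e5 : p2 + (y + 1) - 1 = p2 + y := by omega
        rw [e1, e2, e5, hC]
        have hy' := brfne (N := N) (n := y) (by omega)
        have hby := brne1 (N := N) (n := y) (by omega)
        have e6 : p2 + (y + 1) = p2 + y + 1 := by ring
        have e3 : (((y + 1 : ℕ) : ℤ)) = (y : ℤ) + 1 := by push_cast; ring
        have e7 : (((p2 + y + 1 : ℕ) : ℤ)) = ((p2 + y : ℕ) : ℤ) + 1 := by push_cast; ring
        have e4 : rt N ^ ((x : ℤ) * ((y + 1 : ℕ) : ℤ) -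
            ((y + 1 : ℕ) : ℤ) * ((N : ℤ) - 1 - 2 * p1)) * rt N ^ (x : ℤ) =
            rt N ^ (-((N : ℤ) - 1 - 2 * ((p1 + x : ℕ) : ℤ))) *
            rt N ^ ((((p1 + x : ℕ) : ℤ) - (p1 : ℤ)) * (((p2 + y : ℕ) : ℤ) - p2) -
          (((p2 + y : ℕ) : ℤ) - p2) * ((N : ℤ) - 1 - 2 * (p1 : ℤ))) := by
          rw [← zpow_add₀ h0, ← zpow_add₀ h0]
          congr 1
          push_cast; ring
        rw [e6, e7, brfS (rt N) (p2 + y)]
        rw [e3] at e4 ⊢
        rw [brfS (rt N) y]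
        field_simp
        linear_combination (-brf (rt N) l * brf (rt N) (p1 + x) * br (rt N) (((p2 + y : ℕ) : ℤ) + 1) * brf (rt N) (p2 + y)) * e4
    rw [t0, t1, t2, br_addF h0]
    ring
  · have e1 : br (rt N) (c1 : ℤ) * ffe N l (c1 - 1) c2 p1 p2 = 0 := by
      rcases Nat.eq_zero_or_pos c1 with h | h
      · subst h; rw [Nat.cast_zero, Pool.Agent.W715.VC.br_zero, zero_mul]
      · rw [ffe, if_neg (fun h => hc (by omega)), mul_zero]
    have e2 : rt N ^ (-((N : ℤ) - 1 - 2 * c1)) * br (rt N) (c2 : ℤ) *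
        ffe N l c1 (c2 - 1) p1 p2 = 0 := by
      rcases Nat.eq_zero_or_pos c2 with h | h
      · subst h; rw [Nat.cast_zero, Pool.Agent.W715.VC.br_zero]; ring
      · rw [ffe, if_neg (fun h => hc (by omega)), mul_zero]
    rw [ffe, if_neg hc, e1, e2, add_zero]

theorem W_F_mul (M : Matrix (Fin N × Fin N) (Fin N × Fin N) ℂ)
    (g : ℕ → ℕ → Fin N × Fin N → ℂ) (hM : ∀ p q, M p q = g p.1 p.2 q) (p q : Fin N × Fin N) :
    ((W (rt N) N).F * M) p q =
      br (rt N) ((p.1 : ℕ) : ℤ) * g (p.1 - 1) p.2 q +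
      rt N ^ (-((N : ℤ) - 1 - 2 * (p.1 : ℕ))) * br (rt N) ((p.2 : ℕ) : ℤ) * g p.1 (p.2 - 1) q := by
  obtain ⟨⟨a, ha⟩, ⟨b, hb⟩⟩ := p
  rw [Matrix.mul_apply, Fintype.sum_prod_type]
  have hE : ∀ r1 r2 : Fin N, (W (rt N) N).F (⟨a, ha⟩, ⟨b, hb⟩) (r1, r2) =
      (if a = (r1 : ℕ) + 1 then br (rt N) (a : ℤ) else 0) *
        (if (⟨b, hb⟩ : Fin N) = r2 then 1 else 0) +
      (if (⟨a, ha⟩ : Fin N) = r1 then rt N ^ (-((N : ℤ) - 1 - 2 * (a : ℕ))) else 0) *
        (if b = (r2 : ℕ) + 1 then br (rt N) (b : ℤ) else 0) := by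
    intro r1 r2
    show (irr (rt N) N).F _ _ * (1 : Matrix (Fin N) (Fin N) ℂ) _ _ +
      (irr (rt N) N).K (rt N) (-1) _ _ * (irr (rt N) N).F _ _ = _
    simp only [irr, WM.K, Matrix.diagonal_apply, Matrix.one_apply]
    congr 2
    split_ifs
    · congr 1
      ring
    · rfl
  simp only [hE, add_mul]
  simp only [Finset.sum_add_distrib]
  congr 1
  · rw [Finset.sum_congr rfl (g := fun r1 : Fin N => if a = (r1 : ℕ) + 1 then
      br (rt N) (a : ℤ) * M (r1, ⟨b, hb⟩) q else 0)]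
    · rcases a with _ | a
      · rw [Finset.sum_eq_zero]
        · simp [Pool.Agent.W715.VC.br_zero]
        · intro r _
          rw [if_neg (by omega)]
      · rw [Finset.sum_eq_single ⟨a, by omega⟩]
        · rw [if_pos rfl, hM]
          rfl
        · intro r _ hr
          rw [if_neg]
          intro h3
          exact hr (Fin.ext (by simp only; omega))
        · intro h3; exact absurd (Finset.mem_univ _) h3
    · intro r1 _
      by_cases h : a = (r1 : ℕ) + 1
      · simp only [if_pos h]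
        rw [Finset.sum_eq_single ⟨b, hb⟩]
        · rw [if_pos rfl, mul_one]
        · intro r _ hr
          rw [if_neg (fun h3 => hr h3.symm)]; ring
        · intro h3; exact absurd (Finset.mem_univ _) h3
      · simp only [if_neg h, zero_mul, Finset.sum_const_zero]
  · rw [Finset.sum_eq_single ⟨a, ha⟩]
    · simp only [if_true]
      rcases b with _ | b
      · rw [Finset.sum_eq_zero]
        · simp [Pool.Agent.W715.VC.br_zero]
        · intro r _
          rw [if_neg (by omega)]; ring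
      · rw [Finset.sum_eq_single ⟨b, by omega⟩]
        · rw [if_pos rfl, hM]
          rfl
        · intro r _ hr
          rw [if_neg]
          · ring
          intro h3
          exact hr (Fin.ext (by simp only; omega))
        · intro h3; exact absurd (Finset.mem_univ _) h3
    · intro r _ hr
      refine Finset.sum_eq_zero fun r2 _ => ?_
      rw [if_neg (fun h3 => hr h3.symm)]; ring
    · intro h3; exact absurd (Finset.mem_univ _) h3

theorem F_pow : ∀ (l : ℕ), l < N → ∀ p q : Fin N × Fin N,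
    ((W (rt N) N).F ^ l) p q = ffe N l p.1 p.2 q.1 q.2
  | 0, _, p, q => by
    rw [pow_zero, Matrix.one_apply, ffe]
    by_cases h : p = q
    · subst h
      have h1 := brfne (N := N) (n := p.1) p.1.2
      have h2 := brfne (N := N) (n := p.2) p.2.2
      rw [if_pos rfl, if_pos ⟨by omega, le_rfl, le_rfl⟩]
      simp only [sub_self, Nat.sub_self, zero_mul, zpow_zero, brf0]
      field_simp
    · rw [if_neg h, if_neg]
      rintro ⟨h1, h2, h3⟩
      apply h
      apply Prod.ext <;> apply Fin.ext <;> omega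
  | l + 1, hl, p, q => by
    rw [pow_succ', W_F_mul _ (fun a b q => ffe N l a b q.1 q.2) (F_pow l (by omega)),
      ffe_succ p.1.2 p.2.2]

end Pool.Agent.Q99.FW
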