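import Pool.Agent.Q191.TW.Lap

/-!
Sums over `ℤ^d` of Gaussian type as integrals.
-/

set_option autoImplicit false

namespace Pool.Agent.Q99.FW

open Finset MeasureTheory Filter Topology

variable {d : ℕ}

/-- floor of a scaled sequence -/
theorem floor_tend (u c : ℝ) : Tendsto (fun N : ℕ => ((⌊√N * u + N * c⌋ : ℝ) - N * c) / √N) atTop
    (𝓝 u) := by
  have hsq : Tendsto (fun N : ℕ => √(N : ℝ)) atTop atTop :=
    Real.tendsto_sqrt_atTop.comp tendsto_natCast_atTop_atTop
  have h0 : Tendsto (fun N : ℕ => (√(N : ℝ))⁻¹) atTop (𝓝 0) := tendsto_inv_atTop_zero.comp hsq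
  have hlo : Tendsto (fun N : ℕ => u - (√(N : ℝ))⁻¹) atTop (𝓝 u) := by
    simpa using tendsto_const_nhds.sub h0
  refine tendsto_of_tendsto_of_tendsto_of_le_of_le' hlo tendsto_const_nhds ?_ ?_
  · filter_upwards [eventually_ge_atTop 1] with N hN
    have hN0 : (0 : ℝ) < N := by exact_mod_cast hN
    have hs : 0 < √(N : ℝ) := Real.sqrt_pos.2 hN0
    rw [le_div_iff₀ hs, sub_mul, inv_mul_cancel₀ hs.ne']
    have := Int.lt_floor_add_one (√N * u + N * c)
    linarith
  · filter_upwards [eventually_ge_atTop 1] with N hN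
    have hN0 : (0 : ℝ) < N := by exact_mod_cast hN
    have hs : 0 < √(N : ℝ) := Real.sqrt_pos.2 hN0
    rw [div_le_iff₀ hs]
    have := Int.floor_le (√N * u + N * c)
    linarith

/-- **sums of Gaussian type as integrals** -/
theorem riemann (c : Fin d → ℝ) {κ C : ℝ} (hκ : 0 < κ) (a : ℕ → (Fin d → ℤ) → ℂ)
    (φ : (Fin d → ℝ) → ℂ)
    (hdom : ∀ᶠ N : ℕ in atTop, ∀ x, ‖a N x‖ ≤
      C * Real.exp (-κ * ((∑ i, ((x i : ℝ) - N * c i) ^ 2) / N)))
    (hlim : ∀ (u : Fin d → ℝ) (x : ℕ → Fin d → ℤ),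
      (∀ i, Tendsto (fun N : ℕ => ((x N i : ℝ) - N * c i) / √N) atTop (𝓝 (u i))) →
      Tendsto (fun N => a N (x N)) atTop (𝓝 (φ u))) :
    Tendsto (fun N : ℕ => (((√N ^ d)⁻¹ : ℝ) : ℂ) * ∑' x, a N x) atTop (𝓝 (∫ u, φ u)) := by
  set F : ℕ → (Fin d → ℝ) → ℂ := fun N u => a N (fun j => ⌊√N * u j + N * c j⌋) with hF
  set κ' : ℝ := κ / 2 with hκ'
  have hκ'0 : 0 < κ' := by positivity
  set bd : (Fin d → ℝ) → ℝ := fun u => (|C| * Real.exp (κ * d)) *
    ∏ j, Real.exp (-κ' * u j ^ 2) with hbd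
  have hbdi : Integrable bd := by
    rw [hbd, MeasureTheory.volume_pi]
    exact (Integrable.fintype_prod fun j => integrable_exp_neg_mul_sq hκ'0).const_mul _
  have hmeas : ∀ N, AEStronglyMeasurable (F N) volume := by
    intro N
    have h1 : Measurable (fun u : Fin d → ℝ => fun j => ⌊√N * u j + N * c j⌋) :=
      measurable_pi_lambda _ fun j => Int.measurable_floor.comp
        (((measurable_pi_apply j).const_mul _).add_const _)
    have h2 : Measurable (fun z : Fin d → ℤ => a N z) := measurable_of_countable _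
    exact (h2.comp h1).aestronglyMeasurable
  have hle : ∀ᶠ N : ℕ in atTop, ∀ u, ‖F N u‖ ≤ bd u := by
    filter_upwards [hdom, eventually_ge_atTop 1] with N hdom hN u
    have hN0 : (0 : ℝ) < N := by exact_mod_cast hN
    have hN1 : (1 : ℝ) ≤ N := by exact_mod_cast hN
    set w : Fin d → ℝ := fun j => (⌊√N * u j + N * c j⌋ : ℝ) - N * c j with hw
    have h1 : ‖F N u‖ ≤ C * Real.exp (-κ * ((∑ i, w i ^ 2) / N)) :=
      hdom (fun j => ⌊√N * u j + N * c j⌋)
    have h5 : ∀ j, N * u j ^ 2 / 2 - 1 ≤ w j ^ 2 := by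
      intro j
      have a1 := Int.floor_le (√N * u j + N * c j)
      have a2 := Int.lt_floor_add_one (√N * u j + N * c j)
      have a3 : w j = (⌊√N * u j + N * c j⌋ : ℝ) - N * c j := rfl
      have hs : √(N : ℝ) ^ 2 = N := Real.sq_sqrt hN0.le
      have a4 : N * u j ^ 2 = (√N * u j) ^ 2 := by rw [mul_pow, hs]
      rw [a4]
      have b1 : √N * u j - w j ≤ 1 := by rw [a3]; linarith
      have b2 : 0 ≤ √N * u j - w j := by rw [a3]; linarith
      nlinarith [sq_nonneg (√N * u j - 2 * w j), sq_nonneg (√N * u j - w j - 1),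
        mul_nonneg b2 (sub_nonneg.2 b1), sq_nonneg (w j - (√N * u j - w j))]
    have h6 : (N : ℝ) / 2 * ∑ j, u j ^ 2 - d ≤ ∑ j, w j ^ 2 := by
      calc (N : ℝ) / 2 * ∑ j, u j ^ 2 - d = ∑ j : Fin d, (N * u j ^ 2 / 2 - 1) := by
            rw [Finset.sum_sub_distrib, Finset.mul_sum]
            simp only [Finset.sum_const, Finset.card_univ, Fintype.card_fin, nsmul_eq_mul, mul_one]
            congr 1
            exact Finset.sum_congr rfl fun j _ => by ring
        _ ≤ _ := Finset.sum_le_sum fun j _ => h5 j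
    have h7 : -κ * ((∑ i, w i ^ 2) / N) ≤ κ * d + -κ' * ∑ j, u j ^ 2 := by
      have h9 : (∑ j, u j ^ 2) / 2 - d ≤ (∑ i, w i ^ 2) / N := by
        rw [le_div_iff₀ hN0]
        have h10 : (d : ℝ) ≤ d * N := by nlinarith [Nat.cast_nonneg (α := ℝ) d]
        nlinarith
      have h10 := mul_le_mul_of_nonneg_left h9 hκ.le
      have e4 : κ * ((∑ j, u j ^ 2) / 2 - d) = κ' * ∑ j, u j ^ 2 - κ * d := by
        rw [hκ']; ring
      rw [e4] at h10
      linarith
    have h11 : bd u = |C| * Real.exp (κ * d + -κ' * ∑ j, u j ^ 2) := by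
      rw [hbd]
      simp only
      rw [← Real.exp_sum, mul_assoc, ← Real.exp_add, ← Finset.mul_sum]
    rw [h11]
    calc ‖F N u‖ ≤ C * Real.exp (-κ * ((∑ i, w i ^ 2) / N)) := h1
      _ ≤ |C| * Real.exp (-κ * ((∑ i, w i ^ 2) / N)) :=
        mul_le_mul_of_nonneg_right (le_abs_self C) (Real.exp_pos _).le
      _ ≤ _ := mul_le_mul_of_nonneg_left (Real.exp_le_exp.2 h7) (abs_nonneg _)
  have hpt : ∀ u, Tendsto (fun N => F N u) atTop (𝓝 (φ u)) := fun u =>
    hlim u (fun N j => ⌊√N * u j + N * c j⌋) fun i => floor_tend (u i) (c i)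
  have hD : Tendsto (fun N => ∫ u, F N u) atTop (𝓝 (∫ u, φ u)) :=
    tendsto_integral_filter_of_dominated_convergence bd (Eventually.of_forall hmeas)
      (hle.mono fun N h => Eventually.of_forall h) hbdi (Eventually.of_forall hpt)
  refine hD.congr' ?_
  filter_upwards [hle, eventually_ge_atTop 1] with N hle hN
  have hN0 : (0 : ℝ) < N := by exact_mod_cast hN
  have hs : 0 < √(N : ℝ) := Real.sqrt_pos.2 hN0
  set G : (Fin d → ℝ) → ℂ := fun w => a N fun j => ⌊w j⌋ with hG
  set c' : Fin d → ℝ := (N : ℝ) • c with hc'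
  have hFG : F N = fun u => (fun w => G (w + c')) (√(N : ℝ) • u) := by
    funext u
    simp only [hF, hG, hc', Pi.add_apply, Pi.smul_apply, smul_eq_mul]
  have hFi : Integrable (F N) :=
    hbdi.mono' (hmeas N) (Eventually.of_forall hle)
  have hG1 : Integrable (fun w => G (w + c')) := by
    rw [hFG] at hFi
    exact (integrable_comp_smul_iff volume _ hs.ne').1 hFi
  have hG2 : Integrable G := by
    have := hG1.comp_sub_right c'
    simpa using this
  have h1 : ∫ u, F N u = ((√N ^ d)⁻¹ : ℝ) • ∫ w, G w := by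
    rw [hFG, Measure.integral_comp_smul volume (fun w => G (w + c')) (√(N : ℝ)),
      integral_add_right_eq_self G c', Module.finrank_fin_fun, abs_of_pos (by positivity)]
  rw [h1, hG, Q191.TW.floor_integral (a N) hG2, Complex.real_smul]

end Pool.Agent.Q99.FW
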