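import Pool.Agent.Q99.FW.Stm
import Pool.Agent.Q99.FW.Ts

/-!
Fully augmented square weaves on the torus: the sum of an entry, statements of its asymptotics.

With `T = a + b = c + d`, `j = 2 T + 1 - N - i`, `r = T - l - p`, critical labels
`a = b = c = d = i = j = N/2`, `l = 2N/3`, `p = r = N/6`.
-/

set_option autoImplicit false

namespace Pool.Agent.Q99.FW

open Filter Topology Finset
open Pool.Agent.Q191.TW (cs)

/-- `Tri` at integers, zero outside of the triangle -/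
noncomputable def TZ (N : ℕ) (x y z : ℤ) : ℝ :=
  if 0 ≤ x ∧ 0 ≤ y ∧ 0 ≤ z then Tri N x.toNat y.toNat z.toNat else 0

def jj (N : ℕ) (a b i : ℤ) : ℤ := 2 * (a + b) + 1 - N - i

def rr (a b l p : ℤ) : ℤ := a + b - l - p

/-- the phase of a term -/
def qe (N : ℕ) (a b c d l p : ℤ) : ℤ :=
  (a - p) * (N - 1 - b - rr a b l p) - (d - rr a b l p) * (N - 1 - c - p)

/-- the modulus of a term -/
noncomputable def T6 (N : ℕ) (a b c d l i p : ℤ) : ℝ :=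
  TZ N (l - i) (N - 1 - l) i * TZ N (l - jj N a b i) (N - 1 - l) (jj N a b i) *
    (TZ N p (a - p) (N - 1 - a) * TZ N p (c - p) (N - 1 - c)) *
    (TZ N (rr a b l p) (b - rr a b l p) (N - 1 - b) *
      TZ N (rr a b l p) (d - rr a b l p) (N - 1 - d))

/-- the terms of an entry -/
noncomputable def tm (w : ℝ) (N : ℕ) (a b c d l i p : ℤ) : ℂ :=
  ((N + i - jj N a b i : ℤ) : ℂ) *
    cs N (w * ((i - jj N a b i : ℤ) : ℝ) ^ 2 / 4 + (qe N a b c d l p : ℝ)) *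
    (T6 N a b c d l i p : ℂ)

/-- an entry -/
noncomputable def SS (w : ℝ) (N : ℕ) (a b c d : ℤ) : ℂ :=
  ∑ l ∈ range N, ∑ i ∈ range N, ∑ p ∈ range N, tm w N a b c d l i p

/-- a normalized entry -/
noncomputable def EE (w : ℝ) (N : ℕ) (a b c d : ℤ) : ℂ :=
  ((√N * Real.exp (-(6 * (N * V0))) : ℝ) : ℂ) * cs N (-ph N a b c d) * SS w N a b c d

/-- limit on the scale `√N` -/
def S_E1 : Prop := ∀ w : ℝ, ∃ c0 : ℂ, c0 ≠ 0 ∧ ∀ (a b c d : ℕ → ℤ) (A B C D : ℝ),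
  (∀ N, a N + b N = c N + d N) →
  Tendsto (fun N : ℕ => ((a N : ℝ) - N / 2) / √N) atTop (𝓝 A) →
  Tendsto (fun N : ℕ => ((b N : ℝ) - N / 2) / √N) atTop (𝓝 B) →
  Tendsto (fun N : ℕ => ((c N : ℝ) - N / 2) / √N) atTop (𝓝 C) →
  Tendsto (fun N : ℕ => ((d N : ℝ) - N / 2) / √N) atTop (𝓝 D) →
  Tendsto (fun N => EE w N (a N) (b N) (c N) (d N)) atTop (𝓝 (c0 * (gau A B C D : ℂ)))

/-- global bound -/
def S_E2 : Prop := ∀ w : ℝ, ∃ C κ : ℝ, 0 ≤ C ∧ 0 < κ ∧ ∀ N : ℕ, 1 ≤ N → ∀ a b c d : ℤ,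
  a + b = c + d →
    ‖EE w N a b c d‖ ≤ C * Real.exp (-κ * ((((a : ℝ) - N / 2) ^ 2 + ((b : ℝ) - N / 2) ^ 2 +
      ((c : ℝ) - N / 2) ^ 2 + ((d : ℝ) - N / 2) ^ 2) / N))

end Pool.Agent.Q99.FW
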