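import Pool.Agent.Q99.FW.Dd2
import Pool.Agent.Q99.FW.Ze

/-!
Closed form of the limits of the terms.
-/

set_option autoImplicit false

namespace Pool.Agent.Q99.FW

open Finset Filter Topology
open Pool.Agent.H550R3.Jones (WM IsMod Gen br brf tens irr W)
open Pool.Agent.H897R.J (gen_v br_neg)
open Pool.Agent.W715.VC (rt)
open Pool.Agent.Q191.FT
open Pool.Agent.Q191.SH (gg f2 sgn gg_node)
open Pool.Agent.Q191.TW (cs cs_add cs_zero cs_ne cs_period rt_cs I_pow brf_rt)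
open Pool.Agent.W719.BS (D D_pos D_refl)

variable {N : ℕ}

theorem cs_neg_one (hN : 0 < N) (n : ℕ) : (-1 : ℂ) ^ n = cs N (N * n) := by
  have h := I_pow hN (2 * n)
  rw [pow_mul, Complex.I_sq] at h
  rw [h]
  congr 1
  push_cast
  ring

/-- the constant of the eigenvalues of a crossing -/
noncomputable def Kg (N : ℕ) (s : ℤ) : ℂ :=
  if s = 1 then cs N ((N : ℝ) + 1 + ((N : ℝ) ^ 2 - 1) / 2 + ((N : ℝ) - 1) ^ 2 / 4 + N * (1 - N))
  else cs N (2 * (N : ℝ) ^ 2 + N + N * (N - 1) / 2 - (N : ℝ) ^ 2 / 4 - 3 / 4)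

theorem gg_rt (hN : 0 < N) {s : ℤ} (hs : s = 1 ∨ s = -1) (a i : ℕ) :
    gg N s (rt N) (((2 * a : ℕ) : ℤ) + 1 + 2 * (i : ℤ)) =
      Kg N s * cs N (s * (2 * (a + i) + 1 - N) ^ 2 / 4) := by
  rw [gg_node, cs_neg_one hN, rt_cs, ← cs_add]
  unfold Kg
  rcases hs with rfl | rfl
  · rw [if_pos rfl, ← cs_add]
    symm
    have h := cs_period hN ((N : ℝ) + 1 + ((N : ℝ) ^ 2 - 1) / 2 + ((N : ℝ) - 1) ^ 2 / 4 + N * (1 - N) +
      ((1 : ℤ) : ℝ) * (2 * (a + i) + 1 - N) ^ 2 / 4) (((a + i : ℕ) : ℤ))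
    rw [← h]
    congr 1
    push_cast
    ring
  · rw [if_neg (by norm_num), ← cs_add]
    congr 1
    push_cast
    ring

/-- the constant of the circle -/
noncomputable def K2 (N : ℕ) : ℂ := rt N ^ (-((2 : ℕ) * ((N : ℤ) ^ 2 - 1)))

theorem TZ_of {x y z : ℤ} (hx : 0 ≤ x) (hy : 0 ≤ y) (hz : 0 ≤ z) :
    TZ N x y z = Tri N x.toNat y.toNat z.toNat := if_pos ⟨hx, hy, hz⟩

theorem TZ_zero {x y z : ℤ} (h : ¬ (0 ≤ x ∧ 0 ≤ y ∧ 0 ≤ z)) : TZ N x y z = 0 := if_neg h

/-- `N / D (N - 1 - n) = D n` -/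
theorem D_co {n k : ℕ} (h : n + k + 1 = N) : (N : ℝ) / D N k = D N n := by
  have h1 := D_refl N n k h
  have h2 := (D_pos N k (by omega)).ne'
  rw [div_eq_iff h2, h1]

theorem D_last (hN : 0 < N) : D N (N - 1) = N := by
  have h := D_refl N 0 (N - 1) (by omega)
  have h0 : D N 0 = 1 := by unfold D; simp
  rw [h0, one_mul] at h
  exact h

/-- the two factors of a term with circle -/
theorem TZ2 {l i : ℕ} {j : ℕ} (hl : l < N) (hi : i ≤ l) (hj : j ≤ l) :
    TZ N ((l : ℤ) - i) (N - 1 - l) i * TZ N ((l : ℤ) - j) (N - 1 - l) j =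
      D N l ^ 2 / (D N i * D N j * (D N (l - i) * D N (l - j))) := by
  rw [TZ_of (by omega) (by omega) (by omega), TZ_of (by omega) (by omega) (by omega)]
  have e1 : ((l : ℤ) - i).toNat = l - i := by omega
  have e2 : ((l : ℤ) - j).toNat = l - j := by omega
  have e3 : ((N : ℤ) - 1 - l).toNat = N - 1 - l := by omega
  rw [e1, e2, e3, Int.toNat_natCast, Int.toNat_natCast]
  unfold Tri
  rw [← D_co (N := N) (n := l) (k := N - 1 - l) (by omega)]
  have h1 := (D_pos N i (by omega)).ne'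
  have h2 := (D_pos N j (by omega)).ne'
  have h3 := (D_pos N (l - i) (by omega)).ne'
  have h4 := (D_pos N (l - j) (by omega)).ne'
  have h5 := (D_pos N (N - 1 - l) (by omega)).ne'
  field_simp

/-- **closed form of the limits of the terms** -/
theorem tl_eq (hN : 0 < N) {s : ℤ} (hs : s = 1 ∨ s = -1) (m a : ℕ) {i l : ℕ} (hi : i ≤ l)
    (hl : l < N) (h2 : 2 * a + 1 + i + l < 2 * N) :
    tl N s m (2 * a) i l = Kg N s ^ m * K2 N * ((-1) ^ l *
      (((N + i - ((N : ℤ) - 1 - 2 * a - i) : ℤ) : ℂ) *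
        cs N ((s * m : ℝ) * ((i - ((N : ℤ) - 1 - 2 * a - i) : ℤ) : ℝ) ^ 2 / 4) *
        ((TZ N ((l : ℤ) - i) (N - 1 - l) i *
          TZ N ((l : ℤ) - ((N : ℤ) - 1 - 2 * a - i)) (N - 1 - l) ((N : ℤ) - 1 - 2 * a - i) : ℝ) : ℂ)) /
        (D N l : ℂ) ^ 2) := by
  unfold tl
  split_ifs with hn
  · have h0 : TZ N ((l : ℤ) - ((N : ℤ) - 1 - 2 * a - i)) (N - 1 - l) ((N : ℤ) - 1 - 2 * a - i) = 0 :=
      TZ_zero (by omega)
    rw [h0]
    simp
  · push Not at hn
    rcases Nat.lt_or_ge (2 * a + i) N with hlo | hhi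
    swap
    · have h0 : TZ N ((l : ℤ) - ((N : ℤ) - 1 - 2 * a - i)) (N - 1 - l) ((N : ℤ) - 1 - 2 * a - i) = 0 :=
        TZ_zero (by omega)
      rw [h0]
      unfold tv
      rw [brf_hi hN hhi]
      simp
    obtain ⟨j, hj⟩ : ∃ j : ℕ, 2 * a + i + j + 1 = N := ⟨N - 1 - (2 * a + i), by omega⟩
    have ej : ((N : ℤ) - 1 - 2 * a - i) = (j : ℤ) := by omega
    have hjl : j ≤ l := by omega
    have en : 2 * a + 1 + i + l - N = l - j := by omega
    rw [ej, en, TZ2 hl hi hjl]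
    unfold tv
    rw [gg_rt hN hs, brf_rt, brf_rt, brf_rt, brf_rt, brf_rt, D_last hN]
    have hD := D_refl N (2 * a + i) j (by omega)
    have p1 := (D_pos N i (by omega)).ne'
    have p2 := (D_pos N j (by omega)).ne'
    have p3 := (D_pos N (l - i) (by omega)).ne'
    have p4 := (D_pos N (l - j) (by omega)).ne'
    have p5 := (D_pos N l (by omega)).ne'
    have eδ : (2 * ((a : ℝ) + i) + 1 - N) = (((i : ℤ) - (j : ℤ) : ℤ) : ℝ) := by
      have : (N : ℝ) = ((2 * a + i + j + 1 : ℕ) : ℝ) := by rw [hj]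
      rw [this]
      push_cast
      ring
    have ec : ((2 * a + 1 + 2 * i : ℕ) : ℂ) = (((N : ℤ) + i - j : ℤ) : ℂ) := by
      have : (N : ℂ) = ((2 * a + i + j + 1 : ℕ) : ℂ) := by rw [hj]
      push_cast
      rw [this]
      push_cast
      ring
    rw [eδ, ec, mul_pow]
    have ecs : cs N ((s : ℝ) * (((i : ℤ) - (j : ℤ) : ℤ) : ℝ) ^ 2 / 4) ^ m =
        cs N ((s * m : ℝ) * (((i : ℤ) - (j : ℤ) : ℤ) : ℝ) ^ 2 / 4) := by
      clear hn h2 hD
      induction m with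
      | zero => rw [pow_zero]; simp [cs_zero]
      | succ m ih =>
        rw [pow_succ, ih, ← cs_add]
        congr 1
        push_cast
        ring
    rw [ecs]
    have hI : Complex.I ≠ 0 := Complex.I_ne_zero
    have hI2 : Complex.I ^ 2 = -1 := Complex.I_sq
    have hP : Complex.I ^ (2 * a + i) / (Complex.I ^ i * Complex.I ^ (l - i) * Complex.I ^ (N - 1) *
        Complex.I ^ (l - j)) = (-1) ^ l := by
      rw [div_eq_iff (by positivity), ← pow_add, ← pow_add, ← pow_add, ← hI2, ← pow_mul]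
      have e : i + (l - i) + (N - 1) + (l - j) = 2 * a + i + 2 * l := by omega
      rw [e, pow_add _ (2 * a + i)]
      have h4 : Complex.I ^ (2 * l) * Complex.I ^ (2 * l) = 1 := by
        rw [← pow_add, ← two_mul, ← mul_assoc]
        norm_num [pow_mul]
      linear_combination (-(Complex.I ^ (2 * a + i))) * h4
    have hS : (-1 : ℂ) ^ (N - 1) * (-1) ^ (l - i) / (-1) ^ (l - j) = 1 := by
      rw [div_eq_iff (pow_ne_zero _ (by norm_num)), ← pow_add, one_mul]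
      have e : N - 1 + (l - i) = 2 * (a + j) + (l - j) := by omega
      rw [e, pow_add, pow_mul]
      norm_num
    have hDN : (D N (2 * a + i) : ℂ) / (N : ℂ) = 1 / (D N j : ℂ) := by
      have hN0 : (N : ℂ) ≠ 0 := by exact_mod_cast hN.ne'
      have p2' : (D N j : ℂ) ≠ 0 := by exact_mod_cast p2
      rw [div_eq_div_iff hN0 p2', one_mul, ← Complex.ofReal_mul, hD]
      simp
    have q1 : (D N i : ℂ) ≠ 0 := by exact_mod_cast p1
    have q2 : (D N j : ℂ) ≠ 0 := by exact_mod_cast p2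
    have q3 : (D N (l - i) : ℂ) ≠ 0 := by exact_mod_cast p3
    have q4 : (D N (l - j) : ℂ) ≠ 0 := by exact_mod_cast p4
    have q5 : (D N l : ℂ) ≠ 0 := by exact_mod_cast p5
    have hN0 : (N : ℂ) ≠ 0 := by exact_mod_cast hN.ne'
    push_cast
    generalize (((N : ℂ) + i - j)) = c
    generalize Kg N s ^ m = G
    generalize cs N ((s * m : ℝ) * (((i : ℝ) - (j : ℝ))) ^ 2 / 4) = E
    change G * E * K2 N * (-1) ^ (N - 1) * (-1) ^ (l - i) *
      (Complex.I ^ (2 * a + i) * (D N (2 * a + i) : ℂ) /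
        (Complex.I ^ i * (D N i : ℂ) * (Complex.I ^ (l - i) * (D N (l - i) : ℂ)))) *
      (c / (Complex.I ^ (N - 1) * (N : ℂ) * ((-1) ^ (l - j) * (Complex.I ^ (l - j) *
        (D N (l - j) : ℂ))))) = _
    have key : G * E * K2 N * (-1) ^ (N - 1) * (-1) ^ (l - i) *
      (Complex.I ^ (2 * a + i) * (D N (2 * a + i) : ℂ) /
        (Complex.I ^ i * (D N i : ℂ) * (Complex.I ^ (l - i) * (D N (l - i) : ℂ)))) *
      (c / (Complex.I ^ (N - 1) * (N : ℂ) * ((-1) ^ (l - j) * (Complex.I ^ (l - j) *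
        (D N (l - j) : ℂ))))) = G * E * K2 N * c * ((-1 : ℂ) ^ (N - 1) * (-1) ^ (l - i) / (-1) ^ (l - j)) *
      (Complex.I ^ (2 * a + i) / (Complex.I ^ i * Complex.I ^ (l - i) * Complex.I ^ (N - 1) *
        Complex.I ^ (l - j))) * ((D N (2 * a + i) : ℂ) / (N : ℂ)) /
        (D N i * D N (l - i) * D N (l - j)) := by
      have r1 : Complex.I ^ i ≠ 0 := pow_ne_zero _ hI
      have r2 : Complex.I ^ (l - i) ≠ 0 := pow_ne_zero _ hI
      have r3 : Complex.I ^ (N - 1) ≠ 0 := pow_ne_zero _ hI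
      have r4 : Complex.I ^ (l - j) ≠ 0 := pow_ne_zero _ hI
      have r5 : (-1 : ℂ) ^ (l - j) ≠ 0 := pow_ne_zero _ (by norm_num)
      generalize Complex.I ^ i = x1 at *
      generalize Complex.I ^ (l - i) = x2 at *
      generalize Complex.I ^ (N - 1) = x3 at *
      generalize Complex.I ^ (l - j) = x4 at *
      generalize (-1 : ℂ) ^ (l - j) = x5 at *
      generalize Complex.I ^ (2 * a + i) = x6 at *
      field_simp
    rw [key, hP, hS, hDN]
    field_simp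

end Pool.Agent.Q99.FW
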