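import Pool.Agent.Q191.TW.Out
import Pool.Agent.Q191.TB.Tor

/-!
Fully augmented square weaves on the torus: statements.

`S_TT`, `S_TL`: bound and limit of `N / (D x D y D z)`, `x + y + z = N - 1`, near
`(N/6, N/3, N/2)` (volume of the ideal tetrahedron with the angles `π/6, π/3, π/2`).
`S_NET`: asymptotics of the trace of the layered operator for vertex matrices with Gaussian entries.
-/

set_option autoImplicit false

namespace Pool.Agent.Q99.FW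

open Filter Topology Finset
open Pool.Agent.W719.BS (D LL)

open Pool.Agent.Q191.TW (cs evp odp Um Rm Mt)

/-- `N / (D x D y D z)` -/
noncomputable def Tri (N x y z : ℕ) : ℝ := N / (D N x * D N y * D N z)

/-- the growth rate of `Tri` at `(1/6, 1/3, 1/2)` -/
noncomputable def V0 : ℝ := -(LL (1 / 6) + LL (1 / 3))

/-- global Gaussian bound -/
def S_TT : Prop := ∃ C κ : ℝ, 0 ≤ C ∧ 0 < κ ∧ ∀ N x y z : ℕ, x + y + z + 1 = N →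
  √N * Tri N x y z ≤ C * Real.exp (N * V0 - Real.log 3 / 2 * (y - N / 3) -
    Real.log 2 * (z - N / 2) -
    κ * (((x : ℝ) - N / 6) ^ 2 + ((y : ℝ) - N / 3) ^ 2 + ((z : ℝ) - N / 2) ^ 2) / N)

/-- limit on the scale `√N` -/
def S_TL : Prop := ∀ (x y z : ℕ → ℕ) (X Y : ℝ), (∀ᶠ N in atTop, x N + y N + z N + 1 = N) →
  Tendsto (fun N : ℕ => ((x N : ℝ) - 1 / 6 * N) / √N) atTop (𝓝 X) →
  Tendsto (fun N : ℕ => ((y N : ℝ) - 1 / 3 * N) / √N) atTop (𝓝 Y) →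
  Tendsto (fun N : ℕ => √N * Tri N (x N) (y N) (z N) * Real.exp (-(N * V0) +
    Real.log 3 / 2 * (y N - N / 3) + Real.log 2 * (z N - N / 2))) atTop
    (𝓝 (1 / √(2 * √3) * Real.exp (-(Real.pi / 2) * (√3 * X ^ 2 + Y ^ 2 / √3))))

/-- the phase of an entry `(c, d) ← (a, b)` -/
noncomputable def ph (N : ℕ) (a b c d : ℝ) : ℝ :=
  N / 3 * ((a - b) + (c - d)) + ((a - b) ^ 2 - (c - d) ^ 2) / 4

/-- the limit of the entries -/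
noncomputable def gau (A B C D : ℝ) : ℝ :=
  Real.exp (-Real.pi * (√3 / 2 * (A + B) ^ 2 + ((A - B) ^ 2 + (C - D) ^ 2) / (4 * √3)))

/-- normalized entries -/
structure Ent (ζ : ℕ → ℤ → ℤ → ℤ → ℤ → ℂ) : Prop where
  range : ∀ N a b c d, ζ N a b c d ≠ 0 →
    (0 ≤ a ∧ a < N) ∧ (0 ≤ b ∧ b < N) ∧ (0 ≤ c ∧ c < N) ∧ (0 ≤ d ∧ d < N)
  bound : ∃ C κ : ℝ, 0 ≤ C ∧ 0 < κ ∧ ∀ᶠ N : ℕ in atTop, ∀ a b c d : ℤ, a + b = c + d →
    ‖ζ N a b c d‖ ≤ C * Real.exp (-κ * ((((a : ℝ) - N / 2) ^ 2 + ((b : ℝ) - N / 2) ^ 2 +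
      ((c : ℝ) - N / 2) ^ 2 + ((d : ℝ) - N / 2) ^ 2) / N))
  lim : ∀ (a b c d : ℕ → ℤ) (A B C D : ℝ), (∀ N, a N + b N = c N + d N) →
    Tendsto (fun N : ℕ => ((a N : ℝ) - N / 2) / √N) atTop (𝓝 A) →
    Tendsto (fun N : ℕ => ((b N : ℝ) - N / 2) / √N) atTop (𝓝 B) →
    Tendsto (fun N : ℕ => ((c N : ℝ) - N / 2) / √N) atTop (𝓝 C) →
    Tendsto (fun N : ℕ => ((d N : ℝ) - N / 2) / √N) atTop (𝓝 D) →
    Tendsto (fun N => ζ N (a N) (b N) (c N) (d N)) atTop (𝓝 (gau A B C D : ℂ))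

/-- a layer of vertices -/
noncomputable def layZ {N s : ℕ} (Z : Fin (s + 1) → Mt N) :
    Matrix (Fin (2 * s + 1 + 1) → Fin N) (Fin (2 * s + 1 + 1) → Fin N) ℂ :=
  fun u t => ∏ k : Fin (s + 1), Z k (u (evp k), u (odp k)) (t (evp k), t (odp k))

/-- the operator of the weave on the vectors killed by `E` -/
noncomputable def HH {N : ℕ} (s l r : ℕ) (Z : Fin (l + 1) → Fin (s + 1) → Mt N) :
    Matrix (Fin (2 * s + 1 + 1) → Fin N) (Fin (2 * s + 1 + 1) → Fin N) ℂ :=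
  (List.ofFn fun j => layZ (Z j) * Um N (2 * s + 1)).prod * Rm N (2 * s + 1) ^ (2 * r)

/-- **the network** -/
def S_NET : Prop := ∀ (s l r : ℕ) (Z : (N : ℕ) → Fin (l + 1) → Fin (s + 1) → Mt N)
  (ζ : Fin (l + 1) → Fin (s + 1) → ℕ → ℤ → ℤ → ℤ → ℤ → ℂ), (∀ j k, Ent (ζ j k)) →
  (∀ (N : ℕ) j k (p q : Fin N × Fin N), Z N j k p q =
    if (p.1 : ℕ) + p.2 = q.1 + q.2 then
      ζ j k N (q.1 : ℕ) (q.2 : ℕ) (p.1 : ℕ) (p.2 : ℕ) *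
        cs N (ph N (q.1 : ℕ) (q.2 : ℕ) (p.1 : ℕ) (p.2 : ℕ)) else 0) →
  ∃ L : ℂ, L ≠ 0 ∧ Tendsto (fun N : ℕ => (((√N ^ ((l + 1) * (s + 1) + 1))⁻¹ : ℝ) : ℂ) *
    (HH s l r (Z N)).trace) atTop (𝓝 L)

end Pool.Agent.Q99.FW
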